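import Pool.Agent.H185.XQ.Dil
import Pool.Agent.H847R3.SuppA
import Pool.Agent.H847R3.XpXqF

/-!
# Common parts of affine images of invariant measures
-/

set_option autoImplicit false
set_option linter.unusedSectionVars false

open MeasureTheory Filter Topology Set ProbabilityTheory
open scoped InnerProductSpace ComplexConjugate ENNReal BoundedContinuousFunction

namespace Pool.Agent.H185.XQ

/-- `α` and `β` have a common part of mass `c` -/
def Common (c : ℝ) (α β : Measure UnitAddCircle) : Prop :=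
  ∃ σ : Measure UnitAddCircle, IsProbabilityMeasure σ ∧ ENNReal.ofReal c • σ ≤ α ∧
    ENNReal.ofReal c • σ ≤ β

theorem closed_le' {α β : Measure UnitAddCircle} [IsFiniteMeasure α] [IsFiniteMeasure β] {c : ℝ}
    (h : ∀ f : C(UnitAddCircle, ℝ), (∀ x, 0 ≤ f x) → c * ∫ x, f x ∂α ≤ ∫ x, f x ∂β)
    {F : Set UnitAddCircle} (hF : IsClosed F) : c * α.real F ≤ β.real F := by
  have hδ : ∀ n : ℕ, 0 < (1 : ℝ) / (n + 1) := fun n => by positivity
  have hlim : Tendsto (fun n : ℕ => (1 : ℝ) / (n + 1)) atTop (𝓝 0) :=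
    tendsto_one_div_add_atTop_nhds_zero_nat
  have t1 := tendsto_integral_thickenedIndicator_of_isClosed α hF hδ hlim
  have t2 := tendsto_integral_thickenedIndicator_of_isClosed β hF hδ hlim
  refine le_of_tendsto_of_tendsto' (t1.const_mul c) t2 fun n => ?_
  have := h ⟨fun x => (thickenedIndicator (hδ n) F x : ℝ),
    NNReal.continuous_coe.comp (thickenedIndicator (hδ n) F).continuous⟩
    (fun x => NNReal.coe_nonneg _)
  exact this

theorem le_of_integral {α β : Measure UnitAddCircle} [IsFiniteMeasure α] [IsFiniteMeasure β] {c : ℝ}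
    (hc : 0 ≤ c)
    (h : ∀ f : C(UnitAddCircle, ℝ), (∀ x, 0 ≤ f x) → c * ∫ x, f x ∂α ≤ ∫ x, f x ∂β) :
    ENNReal.ofReal c • α ≤ β := by
  refine Measure.le_intro fun A hA _ => ?_
  have hfin : (ENNReal.ofReal c • α) A ≠ ⊤ := by
    rw [Measure.smul_apply, smul_eq_mul]
    exact ENNReal.mul_ne_top ENNReal.ofReal_ne_top (measure_ne_top _ _)
  have hf1 : IsFiniteMeasure (ENNReal.ofReal c • α) :=
    ⟨by rw [Measure.smul_apply, smul_eq_mul]
        exact ENNReal.mul_lt_top ENNReal.ofReal_lt_top (measure_lt_top _ _)⟩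
  refine ENNReal.le_of_forall_pos_le_add fun ε hε _ => ?_
  obtain ⟨K, hKA, hKc, hK⟩ := hA.exists_isClosed_lt_add hfin (ε := (ε : ENNReal))
    (by exact_mod_cast hε.ne')
  have h1 := closed_le' h hKc
  have h2 : (ENNReal.ofReal c • α) K ≤ β K := by
    rw [Measure.smul_apply, smul_eq_mul, ← ENNReal.toReal_le_toReal
      (ENNReal.mul_ne_top ENNReal.ofReal_ne_top (measure_ne_top _ _)) (measure_ne_top _ _),
      ENNReal.toReal_mul, ENNReal.toReal_ofReal hc]
    exact h1
  calc _ ≤ (ENNReal.ofReal c • α) K + ε := hK.le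
    _ ≤ β K + ε := by gcongr
    _ ≤ β A + ε := by gcongr

theorem integrable_contR (μ : Measure UnitAddCircle) [IsFiniteMeasure μ] (f : C(UnitAddCircle, ℝ)) :
    Integrable (fun x => f x) μ :=
  f.continuous.integrable_of_hasCompactSupport (HasCompactSupport.of_compactSpace _)

theorem integral_le_of_le {α β : Measure UnitAddCircle} [IsFiniteMeasure α] [IsFiniteMeasure β] {c : ℝ}
    (hc : 0 ≤ c) (h : ENNReal.ofReal c • α ≤ β) (f : C(UnitAddCircle, ℝ)) (hf : ∀ x, 0 ≤ f x) :
    c * ∫ x, f x ∂α ≤ ∫ x, f x ∂β := by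
  have h1 := integral_mono_measure (f := fun x => f x) h (Filter.Eventually.of_forall hf)
    (integrable_contR β f)
  rwa [integral_smul_measure, ENNReal.toReal_ofReal hc, smul_eq_mul] at h1

theorem continuous_int (f : C(UnitAddCircle, ℝ)) :
    Continuous (fun μ : ProbabilityMeasure UnitAddCircle => ∫ x, f x ∂(μ : Measure UnitAddCircle)) :=
  ProbabilityMeasure.continuous_iff_forall_continuous_integral.1 continuous_id
    (BoundedContinuousFunction.mkOfCompact f)

theorem continuous_cf (n : ℤ) :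
    Continuous (fun μ : ProbabilityMeasure UnitAddCircle => cf (μ : Measure UnitAddCircle) n) := by
  rw [continuous_iff_continuousAt]
  intro μ
  exact (ProbabilityMeasure.tendsto_iff_forall_integral_rclike_tendsto ℂ).1 tendsto_id
    (BoundedContinuousFunction.mkOfCompact (fourier n))

abbrev PM := ProbabilityMeasure UnitAddCircle

/-- the closed condition: `c σ ≤ β` -/
theorem isClosed_common {X : Type*} [TopologicalSpace X] {c : ℝ} (hc : 0 ≤ c) {a b : X → PM}
    (ha : Continuous a) (hb : Continuous b) :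
    IsClosed {x : X | ENNReal.ofReal c • (a x : Measure UnitAddCircle) ≤ (b x : Measure UnitAddCircle)} := by
  have e : {x : X | ENNReal.ofReal c • (a x : Measure UnitAddCircle) ≤ (b x : Measure UnitAddCircle)} =
      ⋂ f : {f : C(UnitAddCircle, ℝ) // ∀ x, 0 ≤ f x},
        {x : X | c * ∫ y, f.1 y ∂(a x : Measure UnitAddCircle) ≤
          ∫ y, f.1 y ∂(b x : Measure UnitAddCircle)} := by
    ext x
    simp only [mem_ofPred_eq, mem_iInter]
    exact ⟨fun h f => integral_le_of_le hc h f.1 f.2, fun h => le_of_integral hc fun f hf => h ⟨f, hf⟩⟩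
  rw [e]
  exact isClosed_iInter fun f => _root_.isClosed_le
    (continuous_const.mul ((continuous_int f.1).comp ha)) ((continuous_int f.1).comp hb)

/-- the closed condition: the Fourier coefficients agree -/
theorem isClosed_inv {X : Type*} [TopologicalSpace X] {a : X → PM} (ha : Continuous a) (s : ℕ) :
    IsClosed {x : X | Inv s (a x : Measure UnitAddCircle)} := by
  have e : {x : X | Inv s (a x : Measure UnitAddCircle)} =
      ⋂ n : ℤ, {x : X | cf (a x : Measure UnitAddCircle) (n * s) = cf (a x : Measure UnitAddCircle) n} := by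
    ext x
    simp only [mem_ofPred_eq, mem_iInter]
    exact inv_iff
  rw [e]
  exact isClosed_iInter fun n => isClosed_eq ((continuous_cf _).comp ha) ((continuous_cf _).comp ha)

theorem isClosed_trans {X : Type*} [TopologicalSpace X] {a b : X → PM} {t : X → UnitAddCircle}
    (ha : Continuous a) (hb : Continuous b) (ht : Continuous t) :
    IsClosed {x : X | (b x : Measure UnitAddCircle) = (a x : Measure UnitAddCircle).map (fun y => y + t x)} := by
  have e : {x : X | (b x : Measure UnitAddCircle) =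
      (a x : Measure UnitAddCircle).map (fun y => y + t x)} =
      ⋂ n : ℤ, {x : X | cf (b x : Measure UnitAddCircle) n =
        fourier n (t x) * cf (a x : Measure UnitAddCircle) n} := by
    ext x
    simp only [mem_ofPred_eq, mem_iInter]
    constructor
    · intro h n
      rw [h, cf_translate]
    · intro h
      refine ext_cf fun n => ?_
      rw [h, cf_translate]
  rw [e]
  exact isClosed_iInter fun n => isClosed_eq ((continuous_cf _).comp hb)
    (((fourier n).continuous.comp ht).mul ((continuous_cf _).comp ha))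

/-- the translations with a common part of mass `c` -/
def KT (p q : ℕ) (V : Set PM) (c : ℝ) : Set UnitAddCircle :=
  {t | ∃ μ : PM, Inv p (μ : Measure UnitAddCircle) ∧ Inv q (μ : Measure UnitAddCircle) ∧
    ∃ ν ∈ V, Common c ((μ : Measure UnitAddCircle).map (fun x => x + t)) ν}

theorem isClosed_KT (p q : ℕ) {V : Set PM} (hV : IsClosed V) {c : ℝ} (hc : 0 ≤ c) :
    IsClosed (KT p q V c) := by
  set Q : Set (PM × PM × PM × PM × UnitAddCircle) :=
    {x | Inv p (x.1 : Measure UnitAddCircle)} ∩ {x | Inv q (x.1 : Measure UnitAddCircle)} ∩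
    {x | (x.2.1 : Measure UnitAddCircle) =
      (x.1 : Measure UnitAddCircle).map (fun y => y + x.2.2.2.2)} ∩
    {x | ENNReal.ofReal c • (x.2.2.1 : Measure UnitAddCircle) ≤ (x.2.1 : Measure UnitAddCircle)} ∩
    {x | ENNReal.ofReal c • (x.2.2.1 : Measure UnitAddCircle) ≤ (x.2.2.2.1 : Measure UnitAddCircle)} ∩
    {x | x.2.2.2.1 ∈ V} with hQ
  have hQc : IsClosed Q := by
    refine ((((IsClosed.inter (isClosed_inv continuous_fst p) (isClosed_inv continuous_fst q)).inter
      (isClosed_trans continuous_fst (by fun_prop) (by fun_prop))).inter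
      (isClosed_common hc (by fun_prop) (by fun_prop))).inter
      (isClosed_common hc (by fun_prop) (by fun_prop))).inter (hV.preimage (by fun_prop))
  have e : KT p q V c = (fun x : PM × PM × PM × PM × UnitAddCircle => x.2.2.2.2) '' Q := by
    ext t
    constructor
    · rintro ⟨μ, h1, h2, ν, hν, σ, hσ, h3, h4⟩
      refine ⟨(μ, ⟨(μ : Measure UnitAddCircle).map (fun x => x + t),
        Measure.isProbabilityMeasure_map (by fun_prop)⟩, ⟨σ, hσ⟩, ν, t), ?_, rfl⟩
      exact ⟨⟨⟨⟨⟨h1, h2⟩, rfl⟩, h3⟩, h4⟩, hν⟩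
    · rintro ⟨⟨μ, β, σ, ν, t⟩, ⟨⟨⟨⟨⟨h1, h2⟩, h3⟩, h4⟩, h5⟩, h6⟩, rfl⟩
      simp only [mem_ofPred_eq] at h1 h2 h3 h4 h5 h6
      refine ⟨μ, h1, h2, ν, h6, σ, inferInstance, ?_, h5⟩
      rw [← h3]
      exact h4
  rw [e]
  have i1 : CompactSpace (PM × UnitAddCircle) := inferInstance
  have i2 : CompactSpace (PM × PM × UnitAddCircle) := instCompactSpaceProd
  have i3 : CompactSpace (PM × PM × PM × UnitAddCircle) := instCompactSpaceProd
  have i4 : CompactSpace (PM × PM × PM × PM × UnitAddCircle) := instCompactSpaceProd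
  exact (hQc.isCompact.image (by fun_prop)).isClosed

theorem common_push {c : ℝ} {α β : Measure UnitAddCircle} (h : Common c α β) (s : ℕ) :
    Common c (α.map (fun x => s • x)) (β.map (fun x => s • x)) := by
  obtain ⟨σ, hσ, h1, h2⟩ := h
  refine ⟨σ.map (fun x => s • x), Measure.isProbabilityMeasure_map (measurable_smul' s).aemeasurable,
    ?_, ?_⟩
  · rw [← Measure.map_smul]
    exact Measure.map_mono h1 (measurable_smul' s)
  · rw [← Measure.map_smul]
    exact Measure.map_mono h2 (measurable_smul' s)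

theorem KT_smul {p q : ℕ} {V : Set PM} {c : ℝ} {s : ℕ}
    (hs : ∀ μ : PM, Inv p (μ : Measure UnitAddCircle) → Inv q (μ : Measure UnitAddCircle) →
      Inv s (μ : Measure UnitAddCircle))
    (hV : ∀ ν ∈ V, Inv s (ν : Measure UnitAddCircle)) {t : UnitAddCircle} (ht : t ∈ KT p q V c) :
    s • t ∈ KT p q V c := by
  obtain ⟨μ, h1, h2, ν, hν, h⟩ := ht
  refine ⟨μ, h1, h2, ν, hν, ?_⟩
  have h3 := common_push h s
  rw [(hV ν hν).map_eq, Measure.map_map (measurable_smul' s) (by fun_prop)] at h3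
  have e : ((fun x : UnitAddCircle => s • x) ∘ fun x => x + t) =
      (fun x => x + s • t) ∘ fun x => s • x := by
    funext x
    simp only [Function.comp_apply, smul_add]
  rw [e, ← Measure.map_map (by fun_prop) (measurable_smul' s), (hs μ h1 h2).map_eq] at h3
  exact h3

theorem not_common_of_singular {c : ℝ} (hc : 0 < c) {α β : Measure UnitAddCircle} (h : α ⟂ₘ β) :
    ¬ Common c α β := by
  rintro ⟨σ, hσ, h1, h2⟩
  have h3 : (ENNReal.ofReal c • σ) ⟂ₘ (ENNReal.ofReal c • σ) :=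
    h.mono_ac h1.absolutelyContinuous h2.absolutelyContinuous
  have h4 := (Measure.MutuallySingular.self_iff _).1 h3
  have h5 : (ENNReal.ofReal c • σ) univ = 0 := by rw [h4]; simp
  rw [Measure.smul_apply, measure_univ, smul_eq_mul, mul_one, ENNReal.ofReal_eq_zero] at h5
  linarith

theorem KT_ne_univ {p q : ℕ} (hp : 2 ≤ p) (hq : 2 ≤ q)
    (hirr : Irrational (Real.log p / Real.log q)) {V : Set PM}
    (hV : ∀ ν ∈ V, Inv p (ν : Measure UnitAddCircle) ∧ Inv q (ν : Measure UnitAddCircle) ∧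
      (ν : Measure UnitAddCircle) ⟂ₘ volume) {c : ℝ} (hc : 0 < c) : KT p q V c ≠ univ := by
  intro h
  have ht : ((Real.sqrt 2 : ℝ) : UnitAddCircle) ∈ KT p q V c := by rw [h]; trivial
  obtain ⟨μ, h1, h2, ν, hν, h3⟩ := ht
  obtain ⟨h4, h5, h6⟩ := hV ν hν
  refine not_common_of_singular hc ?_ h3
  refine Pool.Agent.H847R3.XpXq.maps hp hq hirr h1 h2 h4 h5 (Or.inr h6)
    (C := {((Real.sqrt 2 : ℝ), fun _ => 1)}) (countable_singleton _) ?_ (by fun_prop) ?_
  · rintro x rfl
    exact ⟨irrational_sqrt_two, fun _ => ⟨0, 0, by simp⟩⟩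
  · refine Filter.Eventually.of_forall fun x => ⟨1, 1, one_ne_zero, one_ne_zero, _, rfl, ?_⟩
    simp

theorem finite_KT {p q : ℕ} (hp : 2 ≤ p) (hq : 2 ≤ q)
    (hirr : Irrational (Real.log p / Real.log q)) {V : Set PM} (hVc : IsClosed V)
    (hV : ∀ ν ∈ V, Inv p (ν : Measure UnitAddCircle) ∧ Inv q (ν : Measure UnitAddCircle) ∧
      (ν : Measure UnitAddCircle) ⟂ₘ volume) {c : ℝ} (hc : 0 < c) : (KT p q V c).Finite :=
  Pool.Agent.H847R3.XpXq.finite_of_inv hp hq hirr (isClosed_KT p q hVc hc.le)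
    (fun _ hx => ⟨KT_smul (fun _ h _ => h) (fun ν hν => (hV ν hν).1) hx,
      KT_smul (fun _ _ h => h) (fun ν hν => (hV ν hν).2.1) hx⟩) (KT_ne_univ hp hq hirr hV hc)

/-- measures with small Fourier coefficients have no common part of mass `c` with the family -/
theorem exists_small {V : Set PM} (hVc : IsClosed V) (hV : ∀ ν ∈ V, (ν : Measure UnitAddCircle) ⟂ₘ volume)
    {c : ℝ} (hc : 0 < c) : ∃ δ : ℝ, 0 < δ ∧ ∃ M : ℕ, ∀ α : PM, ∀ ν ∈ V,
      Common c (α : Measure UnitAddCircle) ν →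
        ∃ m : ℤ, m ≠ 0 ∧ |m| ≤ M ∧ δ ≤ ‖cf (α : Measure UnitAddCircle) m‖ := by
  by_contra hcon
  push Not at hcon
  choose α ν hν h1 h2 using fun j : ℕ => hcon (1 / ((j : ℝ) + 1)) (by positivity) j
  choose σ hσ h3 h4 using h1
  -- a convergent subsequence along an ultrafilter
  set W : Ultrafilter ℕ := Ultrafilter.of atTop with hW
  have hWle : (W : Filter ℕ) ≤ atTop := Ultrafilter.of_le _
  let x : ℕ → PM × PM := fun j => (ν j, ⟨σ j, hσ j⟩)
  obtain ⟨y, -, hy⟩ := isCompact_univ.ultrafilter_le_nhds' (W.map x) (by rw [Ultrafilter.mem_map, preimage_univ]; exact Filter.univ_mem)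
  have hy' : Tendsto x W (𝓝 y) := hy
  let l : PM := ⟨volume, inferInstance⟩
  have hα : Tendsto α W (𝓝 l) := by
    refine Tendsto.mono_left ?_ hWle
    rw [ProbabilityMeasure.tendsto_iff_forall_integral_tendsto]
    intro f
    refine tendsto_of_cf (ν := fun j => (α j : Measure UnitAddCircle)) (fun j => inferInstance)
      (ρ := volume) (fun n => ?_) f.toContinuousMap
    by_cases hn : n = 0
    · subst hn
      simp_rw [cf_zero]
      exact tendsto_const_nhds
    · rw [cf_volume hn, Metric.tendsto_atTop]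
      intro ε hε
      obtain ⟨K, hK⟩ := exists_nat_one_div_lt hε
      refine ⟨max K n.natAbs, fun j hj => ?_⟩
      rw [dist_zero_right]
      have hj1 : (K : ℝ) ≤ j := by exact_mod_cast (le_max_left _ _).trans hj
      have hj2 : |n| ≤ (j : ℤ) := by
        rw [Int.abs_eq_natAbs]
        exact_mod_cast (le_max_right _ _).trans hj
      calc _ < 1 / ((j : ℝ) + 1) := h2 j n hn hj2
        _ ≤ 1 / ((K : ℝ) + 1) := by gcongr
        _ < ε := hK
  have hQ1 : IsClosed {z : PM × PM × PM | ENNReal.ofReal c • (z.2.2 : Measure UnitAddCircle) ≤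
      (z.1 : Measure UnitAddCircle)} := isClosed_common hc.le (by fun_prop) (by fun_prop)
  have hQ2 : IsClosed {z : PM × PM × PM | ENNReal.ofReal c • (z.2.2 : Measure UnitAddCircle) ≤
      (z.2.1 : Measure UnitAddCircle)} := isClosed_common hc.le (by fun_prop) (by fun_prop)
  have hQ3 : IsClosed {z : PM × PM × PM | z.2.1 ∈ V} := hVc.preimage (by fun_prop)
  have hlim : Tendsto (fun j => (α j, x j)) W (𝓝 (l, y)) := hα.prodMk_nhds hy'
  have m1 := hQ1.mem_of_tendsto hlim (Filter.Eventually.of_forall fun j => h3 j)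
  have m2 := hQ2.mem_of_tendsto hlim (Filter.Eventually.of_forall fun j => h4 j)
  have m3 := hQ3.mem_of_tendsto hlim (Filter.Eventually.of_forall fun j => hν j)
  simp only [mem_ofPred_eq] at m1 m2 m3
  exact not_common_of_singular hc (hV _ m3) ⟨y.2, inferInstance, m2, m1⟩

theorem density_zero {V : Set PM} (hVc : IsClosed V)
    (hV : ∀ ν ∈ V, (ν : Measure UnitAddCircle) ⟂ₘ volume) {c : ℝ} (hc : 0 < c)
    {μ : Measure UnitAddCircle} [IsProbabilityMeasure μ] (hat : ∀ x, μ {x} = 0) :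
    Tendsto (fun N : ℕ => (({n : ℕ | n < N ∧ ∃ t : UnitAddCircle, ∃ ν ∈ V,
      Common c (μ.map (fun x => n • x + t)) (ν : Measure UnitAddCircle)}.ncard : ℕ) : ℝ) / N) atTop
      (𝓝 0) := by
  obtain ⟨δ, hδ, M, h⟩ := exists_small hVc hV hc
  set F : Finset ℤ := (Finset.Icc (-(M : ℤ)) M).erase 0 with hF
  have hF0 : ∀ m ∈ F, m ≠ 0 := fun m hm => (Finset.mem_erase.1 hm).1
  have h1 : Tendsto (fun N : ℕ => (δ ^ 2)⁻¹ *
      ∑ m ∈ F, (N : ℝ)⁻¹ * ∑ n ∈ Finset.range N, ‖cf μ (m * n)‖ ^ 2) atTop (𝓝 0) := by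
    have h2 : Tendsto (fun N : ℕ =>
        ∑ m ∈ F, (N : ℝ)⁻¹ * ∑ n ∈ Finset.range N, ‖cf μ (m * n)‖ ^ 2) atTop (𝓝 (∑ m ∈ F, 0)) :=
      tendsto_finsetSum _ fun m hm => wiener_sq hat (hF0 m hm)
    rw [Finset.sum_const_zero] at h2
    simpa using h2.const_mul ((δ ^ 2)⁻¹)
  refine squeeze_zero (fun N => by positivity) (fun N => ?_) h1
  classical
  set E : Set ℕ := {n : ℕ | ∃ t : UnitAddCircle, ∃ ν ∈ V,
      Common c (μ.map (fun x => n • x + t)) (ν : Measure UnitAddCircle)} with hE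
  have e : {n : ℕ | n < N ∧ ∃ t : UnitAddCircle, ∃ ν ∈ V,
      Common c (μ.map (fun x => n • x + t)) (ν : Measure UnitAddCircle)} =
      (((Finset.range N).filter (fun n => n ∈ E) : Finset ℕ) : Set ℕ) := by
    ext n
    simp [hE]
  rw [e, Set.ncard_coe_finset, Finset.card_filter]
  push_cast
  have key : ∀ n ∈ Finset.range N, (if n ∈ E then (1 : ℝ) else 0) ≤
      (δ ^ 2)⁻¹ * ∑ m ∈ F, ‖cf μ (m * n)‖ ^ 2 := by
    intro n _
    split_ifs with hn
    · obtain ⟨t, ν, hν, hcom⟩ := hn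
      have hmeas : Measurable (fun x : UnitAddCircle => n • x + t) := by fun_prop
      obtain ⟨m, hm, hmM, hmδ⟩ := h ⟨μ.map (fun x => n • x + t),
        Measure.isProbabilityMeasure_map hmeas.aemeasurable⟩ ν hν hcom
      have e1 : μ.map (fun x : UnitAddCircle => n • x + t) =
          (μ.map (fun x : UnitAddCircle => n • x)).map (fun x => x + t) := by
        rw [Measure.map_map (by fun_prop) (measurable_smul' n)]
        rfl
      have e2 : ‖cf (μ.map (fun x : UnitAddCircle => n • x + t)) m‖ = ‖cf μ (m * n)‖ := by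
        rw [e1, cf_translate, cf_map, norm_mul, fourier_apply, Circle.norm_coe, one_mul]
      have hmδ' : δ ≤ ‖cf μ (m * n)‖ := by rw [← e2]; exact hmδ
      have hmF : m ∈ F := by
        rw [hF, Finset.mem_erase, Finset.mem_Icc]
        exact ⟨hm, abs_le.1 hmM⟩
      have h3 : ‖cf μ (m * n)‖ ^ 2 ≤ ∑ m ∈ F, ‖cf μ (m * n)‖ ^ 2 :=
        Finset.single_le_sum (f := fun m : ℤ => ‖cf μ (m * n)‖ ^ 2) (fun _ _ => by positivity) hmF
      have h4 : δ ^ 2 ≤ ‖cf μ (m * n)‖ ^ 2 := pow_le_pow_left₀ hδ.le hmδ' 2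
      rw [← div_eq_inv_mul, le_div_iff₀ (by positivity)]
      linarith
    · positivity
  calc (∑ n ∈ Finset.range N, if n ∈ E then (1 : ℝ) else 0) / N
      ≤ (∑ n ∈ Finset.range N, (δ ^ 2)⁻¹ * ∑ m ∈ F, ‖cf μ (m * n)‖ ^ 2) / N := by
        gcongr with n hn
        exact key n hn
    _ = (δ ^ 2)⁻¹ * ∑ m ∈ F, (N : ℝ)⁻¹ * ∑ n ∈ Finset.range N, ‖cf μ (m * n)‖ ^ 2 := by
        rw [← Finset.mul_sum, Finset.sum_comm, div_eq_inv_mul, ← Finset.mul_sum]
        ring

theorem zmap_translate (μ : Measure UnitAddCircle) (a : ℤ) (t : UnitAddCircle) :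
    μ.map (fun x => a • x + t) = (μ.map (fun x => a • x)).map (fun x => x + t) := by
  rw [Measure.map_map (by fun_prop) (Pool.Agent.H847R3.XpXq.meas_zsmul a)]
  rfl

theorem finite_A {p q : ℕ} (hp : 2 ≤ p) (hq : 2 ≤ q)
    (hirr : Irrational (Real.log p / Real.log q)) {V : Set PM} (hVc : IsClosed V)
    (hV : ∀ ν ∈ V, Inv p (ν : Measure UnitAddCircle) ∧ Inv q (ν : Measure UnitAddCircle) ∧
      (ν : Measure UnitAddCircle) ⟂ₘ volume) {c : ℝ} (hc : 0 < c) :
    {t : UnitAddCircle | ∃ μ : Measure UnitAddCircle, IsProbabilityMeasure μ ∧ Inv p μ ∧ Inv q μ ∧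
      ∃ a : ℤ, ∃ ν ∈ V, Common c (μ.map (fun x => a • x + t)) ν}.Finite := by
  refine (finite_KT hp hq hirr hVc hV hc).subset ?_
  rintro t ⟨μ, hμ, h1, h2, a, ν, hν, h⟩
  refine ⟨⟨μ.map (fun x => a • x), Measure.isProbabilityMeasure_map
    (Pool.Agent.H847R3.XpXq.meas_zsmul a).aemeasurable⟩,
    Pool.Agent.H847R3.XpXq.mp_map h1 a, Pool.Agent.H847R3.XpXq.mp_map h2 a, ν, hν, ?_⟩
  rw [zmap_translate] at h
  exact h

theorem common_symm {c : ℝ} {α β : Measure UnitAddCircle} (h : Common c α β) : Common c β α := by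
  obtain ⟨σ, hσ, h1, h2⟩ := h
  exact ⟨σ, hσ, h2, h1⟩

theorem common_translate {c : ℝ} {α β : Measure UnitAddCircle} (h : Common c α β) (t : UnitAddCircle) :
    Common c (α.map (fun x => x + t)) (β.map (fun x => x + t)) := by
  obtain ⟨σ, hσ, h1, h2⟩ := h
  have hm : Measurable (fun x : UnitAddCircle => x + t) := by fun_prop
  refine ⟨σ.map (fun x => x + t), Measure.isProbabilityMeasure_map hm.aemeasurable, ?_, ?_⟩
  · rw [← Measure.map_smul]
    exact Measure.map_mono h1 hm
  · rw [← Measure.map_smul]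
    exact Measure.map_mono h2 hm

theorem finite_A' {p q : ℕ} (hp : 2 ≤ p) (hq : 2 ≤ q)
    (hirr : Irrational (Real.log p / Real.log q)) {V : Set PM} (hVc : IsClosed V)
    (hV : ∀ ν ∈ V, Inv p (ν : Measure UnitAddCircle) ∧ Inv q (ν : Measure UnitAddCircle) ∧
      (ν : Measure UnitAddCircle) ⟂ₘ volume) {c : ℝ} (hc : 0 < c) {a : ℤ} (ha : a ≠ 0) :
    {t : UnitAddCircle | ∃ μ : Measure UnitAddCircle, IsProbabilityMeasure μ ∧ Inv p μ ∧ Inv q μ ∧
      ∃ ν ∈ V, Common c ((ν : Measure UnitAddCircle).map (fun x => a • x + t)) μ}.Finite := by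
  have hcont : Continuous (fun x : UnitAddCircle => a • x) := continuous_zsmul a
  set L : PM → PM := fun ν => ν.map (f := fun x : UnitAddCircle => a • x) hcont.aemeasurable with hL
  have hLc : Continuous L := ProbabilityMeasure.continuous_map hcont
  have hW : IsClosed (L '' V) := (hVc.isCompact.image hLc).isClosed
  have hW' : ∀ ν ∈ L '' V, Inv p (ν : Measure UnitAddCircle) ∧ Inv q (ν : Measure UnitAddCircle) ∧
      (ν : Measure UnitAddCircle) ⟂ₘ volume := by
    rintro _ ⟨ν, hν, rfl⟩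
    obtain ⟨h1, h2, h3⟩ := hV ν hν
    exact ⟨Pool.Agent.H847R3.XpXq.mp_map h1 a, Pool.Agent.H847R3.XpXq.mp_map h2 a,
      Pool.Agent.H847R3.XpXq.sing_map ha h3⟩
  refine ((finite_KT hp hq hirr hW hW' hc).image (fun t => -t)).subset ?_
  rintro t ⟨μ, hμ, h1, h2, ν, hν, h⟩
  refine ⟨-t, ⟨⟨μ, hμ⟩, h1, h2, L ν, ⟨ν, hν, rfl⟩, ?_⟩, neg_neg t⟩
  rw [zmap_translate] at h
  have h3 := common_symm (common_translate h (-t))
  rw [Measure.map_map (by fun_prop) (by fun_prop)] at h3
  have e : ((fun x : UnitAddCircle => x + -t) ∘ fun x => x + t) = id := by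
    funext x
    simp
  rw [e, Measure.map_id] at h3
  exact h3

end Pool.Agent.H185.XQ
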