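import Pool.Agent.H185.XQ.Fin

/-!
# Fourier coefficients of measures on the circle: uniqueness, invariance, convolution
-/

set_option autoImplicit false
set_option linter.unusedSectionVars false

open MeasureTheory Filter Topology Set
open scoped InnerProductSpace ComplexConjugate ENNReal

namespace Pool.Agent.H185.XQ

theorem integrable_cont (μ : Measure UnitAddCircle) [IsFiniteMeasure μ] (f : C(UnitAddCircle, ℂ)) :
    Integrable (fun x => f x) μ :=
  f.continuous.integrable_of_hasCompactSupport (HasCompactSupport.of_compactSpace _)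

theorem continuous_integral_C (μ : Measure UnitAddCircle) [IsFiniteMeasure μ] :
    Continuous (fun f : C(UnitAddCircle, ℂ) => ∫ x, f x ∂μ) := by
  have h := (continuous_integral (α := UnitAddCircle) (G := ℂ) (μ := μ)).comp
    (ContinuousMap.toLp 1 μ ℂ : C(UnitAddCircle, ℂ) →L[ℂ] Lp ℂ 1 μ).continuous
  refine h.congr fun f => ?_
  simp only [Function.comp_apply]
  exact integral_congr_ae (ContinuousMap.coeFn_toLp (p := 1) (𝕜 := ℂ) μ f)

theorem integral_eq_of_cf {μ ν : Measure UnitAddCircle} [IsFiniteMeasure μ] [IsFiniteMeasure ν]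
    (h : ∀ n, cf μ n = cf ν n) (f : C(UnitAddCircle, ℂ)) : ∫ x, f x ∂μ = ∫ x, f x ∂ν := by
  have h1 : ∀ f ∈ Submodule.span ℂ (range <| @fourier (1 : ℝ)), ∫ x, f x ∂μ = ∫ x, f x ∂ν := by
    intro f hf
    induction hf using Submodule.span_induction with
    | mem u hu => obtain ⟨n, rfl⟩ := hu; exact h n
    | zero => simp
    | add x y _ _ hx hy =>
      simp only [ContinuousMap.add_apply]
      rw [integral_add (integrable_cont μ x) (integrable_cont μ y),
        integral_add (integrable_cont ν x) (integrable_cont ν y), hx, hy]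
    | smul c x _ hx =>
      simp only [ContinuousMap.smul_apply]
      rw [integral_smul, integral_smul, hx]
  have h2 : IsClosed {f : C(UnitAddCircle, ℂ) | ∫ x, f x ∂μ = ∫ x, f x ∂ν} :=
    isClosed_eq (continuous_integral_C μ) (continuous_integral_C ν)
  have h3 : (Submodule.span ℂ (range <| @fourier (1 : ℝ))).topologicalClosure = ⊤ :=
    span_fourier_closure_eq_top
  have h4 : f ∈ (Submodule.span ℂ (range <| @fourier (1 : ℝ))).topologicalClosure := by
    rw [h3]; trivial
  exact closure_minimal h1 h2 h4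

/-- uniqueness -/
theorem ext_cf {μ ν : Measure UnitAddCircle} [IsFiniteMeasure μ] [IsFiniteMeasure ν]
    (h : ∀ n, cf μ n = cf ν n) : μ = ν := by
  apply ext_of_forall_integral_eq_of_IsFiniteMeasure
  intro f
  have h1 := integral_eq_of_cf h ⟨fun x => (f x : ℂ), by fun_prop⟩
  simp only [ContinuousMap.coe_mk] at h1
  rw [integral_complex_ofReal, integral_complex_ofReal] at h1
  exact_mod_cast h1

theorem cf_zero (μ : Measure UnitAddCircle) [IsProbabilityMeasure μ] : cf μ 0 = 1 := by
  simp [cf]

theorem fourier_nsmul (n : ℤ) (s : ℕ) (x : UnitAddCircle) :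
    (fourier n (s • x) : ℂ) = fourier (n * s) x := by
  rw [fourier_apply, fourier_apply]
  congr 2
  rw [mul_smul, natCast_zsmul]

theorem measurable_smul' (s : ℕ) : Measurable (fun x : UnitAddCircle => s • x) :=
  (continuous_nsmul s).measurable

theorem cf_map (μ : Measure UnitAddCircle) (s : ℕ) (n : ℤ) :
    cf (μ.map (fun x => s • x)) n = cf μ (n * s) := by
  rw [cf, integral_map (measurable_smul' s).aemeasurable (fourier n).continuous.aestronglyMeasurable, cf]
  simp_rw [fourier_nsmul]

/-- invariance -/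
def Inv (s : ℕ) (μ : Measure UnitAddCircle) : Prop :=
  MeasurePreserving (fun x : UnitAddCircle => s • x) μ μ

theorem inv_iff {μ : Measure UnitAddCircle} [IsFiniteMeasure μ] {s : ℕ} :
    Inv s μ ↔ ∀ n, cf μ (n * s) = cf μ n := by
  constructor
  · intro h n
    rw [← cf_map, h.map_eq]
  · intro h
    exact ⟨measurable_smul' s, ext_cf fun n => by rw [cf_map, h]⟩

theorem cf_volume {n : ℤ} (hn : n ≠ 0) : cf (volume : Measure UnitAddCircle) n = 0 := by
  obtain ⟨t, ht⟩ : ∃ t : UnitAddCircle, (fourier n t : ℂ) ≠ 1 := by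
    refine ⟨((1 / 2 / n : ℝ) : UnitAddCircle), ?_⟩
    have hn' : (n : ℂ) ≠ 0 := by exact_mod_cast hn
    rw [fourier_coe_apply]
    have e : 2 * Real.pi * Complex.I * n * ((1 / 2 / n : ℝ) : ℂ) / (1 : ℝ) = Real.pi * Complex.I := by
      push_cast
      field_simp
    rw [e, Complex.exp_pi_mul_I]
    norm_num
  have h1 : ∫ x : UnitAddCircle, (fourier n (x + t) : ℂ) = ∫ x : UnitAddCircle, (fourier n x : ℂ) :=
    integral_add_right_eq_self _ t
  have h2 : ∫ x : UnitAddCircle, (fourier n (x + t) : ℂ) = fourier n t * cf volume n := by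
    rw [cf, ← integral_const_mul]
    congr 1
    ext x
    rw [fourier_apply, fourier_apply, fourier_apply, smul_add, AddCircle.toCircle_add, Circle.coe_mul,
      mul_comm]
  rw [h2] at h1
  have h3 : (fourier n t - 1) * cf volume n = 0 := by rw [sub_mul, one_mul, h1]; simp [cf]
  rcases mul_eq_zero.1 h3 with h4 | h4
  · exact absurd (sub_eq_zero.1 h4) ht
  · exact h4

instance : IsProbabilityMeasure (volume : Measure UnitAddCircle) := ⟨UnitAddCircle.measure_univ⟩

theorem eq_volume {μ : Measure UnitAddCircle} [IsProbabilityMeasure μ] (h : ∀ n, n ≠ 0 → cf μ n = 0) :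
    μ = volume := by
  refine ext_cf fun n => ?_
  by_cases hn : n = 0
  · rw [hn, cf_zero, cf_zero]
  · rw [h n hn, cf_volume hn]

theorem cf_conv (μ ν : Measure UnitAddCircle) [IsFiniteMeasure μ] [IsFiniteMeasure ν] (n : ℤ) :
    cf (μ.conv ν) n = cf μ n * cf ν n := by
  rw [cf, Measure.conv, integral_map (by fun_prop) (fourier n).continuous.aestronglyMeasurable, cf, cf,
    ← integral_prod_mul]
  congr 1
  ext x
  rw [fourier_apply, fourier_apply, fourier_apply, smul_add, AddCircle.toCircle_add, Circle.coe_mul]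

theorem conv_atomless (μ ν : Measure UnitAddCircle) [IsFiniteMeasure μ] [IsFiniteMeasure ν]
    (h : ∀ x, μ {x} = 0) (x : UnitAddCircle) : μ.conv ν {x} = 0 := by
  rw [Measure.conv, Measure.map_apply (by fun_prop) (measurableSet_singleton x),
    Measure.prod_apply_symm ((by fun_prop : Measurable (fun p : UnitAddCircle × UnitAddCircle =>
      p.1 + p.2)) (measurableSet_singleton x))]
  have e : ∀ y : UnitAddCircle, (fun x' : UnitAddCircle => (x', y)) ⁻¹'
      ((fun p : UnitAddCircle × UnitAddCircle => p.1 + p.2) ⁻¹' {x}) = {x - y} := by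
    intro y
    ext z
    simp only [mem_preimage, mem_singleton_iff]
    rw [eq_sub_iff_add_eq]
  simp_rw [e, h]
  exact lintegral_zero

/-- convolution powers (the exponent is shifted by one) -/
noncomputable def cpow (μ : Measure UnitAddCircle) : ℕ → Measure UnitAddCircle
  | 0 => μ
  | k + 1 => μ.conv (cpow μ k)

instance (μ : Measure UnitAddCircle) [IsProbabilityMeasure μ] (k : ℕ) :
    IsProbabilityMeasure (cpow μ k) := by
  induction k with
  | zero => exact ‹_›
  | succ k ih => rw [cpow]; infer_instance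

theorem cf_cpow (μ : Measure UnitAddCircle) [IsProbabilityMeasure μ] (k : ℕ) (n : ℤ) :
    cf (cpow μ k) n = cf μ n ^ (k + 1) := by
  induction k with
  | zero => rw [cpow, zero_add, pow_one]
  | succ k ih => rw [cpow, cf_conv, ih, pow_succ' _ (k + 1)]

theorem cpow_atomless (μ : Measure UnitAddCircle) [IsProbabilityMeasure μ] (h : ∀ x, μ {x} = 0) (k : ℕ)
    (x : UnitAddCircle) : cpow μ k {x} = 0 := by
  cases k with
  | zero => exact h x
  | succ k => exact conv_atomless _ _ h x

theorem cpow_inv {μ : Measure UnitAddCircle} [IsProbabilityMeasure μ] {s : ℕ} (h : Inv s μ) (k : ℕ) :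
    Inv s (cpow μ k) := by
  rw [inv_iff] at h ⊢
  intro n
  rw [cf_cpow, cf_cpow, h]

end Pool.Agent.H185.XQ
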