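import Pool.Agent.H185.XQ.Erg

/-!
# Ergodic decomposition for semigroups of multiplications of the circle
-/

set_option autoImplicit false
set_option linter.unusedSectionVars false

open MeasureTheory Filter Topology Set ProbabilityTheory
open scoped InnerProductSpace ComplexConjugate ENNReal

namespace Pool.Agent.H185.XQ

variable {G : Submonoid ℕ} {μ : Measure UnitAddCircle} [IsProbabilityMeasure μ]

theorem normsq (f : Lp ℂ 2 μ) : ‖f‖ ^ 2 = ∫ x, ‖f x‖ ^ 2 ∂μ := by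
  have h1 := @inner_self_eq_norm_sq ℂ (Lp ℂ 2 μ) _ _ _ f
  rw [← h1, L2.inner_def]
  have h2 : ∀ x, ⟪f x, f x⟫_ℂ = ((‖f x‖ ^ 2 : ℝ) : ℂ) := by
    intro x
    rw [inner_self_eq_norm_sq_to_K]
    norm_cast
  simp_rw [h2]
  rw [integral_complex_ofReal]
  simp

theorem normsq_toLp (P : C(UnitAddCircle, ℂ)) :
    ‖(ContinuousMap.toLp 2 μ ℂ : C(UnitAddCircle, ℂ) →L[ℂ] Lp ℂ 2 μ) P‖ ^ 2 = ∫ x, ‖P x‖ ^ 2 ∂μ := by
  rw [normsq]
  apply integral_congr_ae
  filter_upwards [ContinuousMap.coeFn_toLp (p := 2) (𝕜 := ℂ) μ P] with x hx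
  rw [hx]

/-- the Koopman operators -/
noncomputable def koop (hμ : ∀ g ∈ G, Inv g μ) (g : G) : Lp ℂ 2 μ →ₗᵢ[ℂ] Lp ℂ 2 μ :=
  Lp.compMeasurePreservingₗᵢ ℂ (fun x : UnitAddCircle => (g : ℕ) • x) (hμ g g.2)

theorem koop_coe (hμ : ∀ g ∈ G, Inv g μ) (g : G) (f : Lp ℂ 2 μ) :
    koop hμ g f =ᵐ[μ] fun x => f ((g : ℕ) • x) :=
  Lp.coeFn_compMeasurePreserving f (hμ g g.2)

theorem koop_mul (hμ : ∀ g ∈ G, Inv g μ) (a b : G) (f : Lp ℂ 2 μ) :
    koop hμ (a * b) f = koop hμ a (koop hμ b f) := by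
  apply Lp.ext
  have h1 := (hμ a a.2).quasiMeasurePreserving.ae_eq_comp (koop_coe hμ b f)
  filter_upwards [koop_coe hμ (a * b) f, koop_coe hμ a (koop hμ b f), h1] with x e1 e2 e3
  rw [e1, e2]
  simp only [Function.comp_apply] at e3
  rw [e3, Submonoid.coe_mul, mul_comm, mul_smul]

theorem koop_fourier (hμ : ∀ g ∈ G, Inv g μ) (g : G) (n : ℤ) :
    koop hμ g ((ContinuousMap.toLp 2 μ ℂ : C(UnitAddCircle, ℂ) →L[ℂ] Lp ℂ 2 μ) (fourier n)) =
      (ContinuousMap.toLp 2 μ ℂ : C(UnitAddCircle, ℂ) →L[ℂ] Lp ℂ 2 μ) (fourier (n * (g : ℕ))) := by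
  apply Lp.ext
  have h1 := (hμ g g.2).quasiMeasurePreserving.ae_eq_comp
    (ContinuousMap.coeFn_toLp (p := 2) (𝕜 := ℂ) μ (fourier n))
  filter_upwards [koop_coe hμ g ((ContinuousMap.toLp 2 μ ℂ : C(UnitAddCircle, ℂ) →L[ℂ] Lp ℂ 2 μ)
    (fourier n)), ContinuousMap.coeFn_toLp (p := 2) (𝕜 := ℂ) μ (fourier (n * (g : ℕ))), h1]
    with x e1 e2 e3
  rw [e1, e2]
  simp only [Function.comp_apply] at e3
  rw [e3, fourier_nsmul]

theorem convexHull_koop (hμ : ∀ g ∈ G, Inv g μ) (n : ℤ) :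
    convexHull ℝ (range fun g : G => koop hμ g
      ((ContinuousMap.toLp 2 μ ℂ : C(UnitAddCircle, ℂ) →L[ℂ] Lp ℂ 2 μ) (fourier n))) =
    (ContinuousMap.toLp 2 μ ℂ : C(UnitAddCircle, ℂ) →L[ℂ] Lp ℂ 2 μ) '' Cv G n := by
  have h2 := ((ContinuousMap.toLp 2 μ ℂ : C(UnitAddCircle, ℂ) →L[ℂ] Lp ℂ 2 μ).toLinearMap.restrictScalars
    ℝ).image_convexHull (range fun g : G => fourier (n * (g : ℕ)))
  have h3 : (ContinuousMap.toLp 2 μ ℂ : C(UnitAddCircle, ℂ) →L[ℂ] Lp ℂ 2 μ) '' Cv G n =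
    ((ContinuousMap.toLp 2 μ ℂ : C(UnitAddCircle, ℂ) →L[ℂ] Lp ℂ 2 μ).toLinearMap.restrictScalars
    ℝ) '' (convexHull ℝ (range fun g : G => fourier (n * (g : ℕ)))) := rfl
  rw [h3, h2, ← range_comp]
  congr 1
  ext x
  simp only [mem_range, Function.comp_apply, koop_fourier]
  rfl

/-- the mean ergodic theorem for convex combinations -/
theorem mean_ergodic (hμ : ∀ g ∈ G, Inv g μ) (n : ℤ) :
    ∃ h : Lp ℂ 2 μ, (h =ᵐ[μ] μ[fun x => (fourier n x : ℂ) | inva G μ]) ∧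
      (∀ P ∈ Cv G n, ‖h‖ ^ 2 ≤ ∫ x, ‖P x‖ ^ 2 ∂μ) ∧
      ∀ ε : ℝ, 0 < ε → ∃ P ∈ Cv G n, ∫ x, ‖P x‖ ^ 2 ∂μ < ‖h‖ ^ 2 + ε := by
  obtain ⟨h, hK, hinv, hmin⟩ := exists_min (koop hμ) (koop_mul hμ)
    ((ContinuousMap.toLp 2 μ ℂ : C(UnitAddCircle, ℂ) →L[ℂ] Lp ℂ 2 μ) (fourier n))
  replace hK : h ∈ closure ((ContinuousMap.toLp 2 μ ℂ : C(UnitAddCircle, ℂ) →L[ℂ] Lp ℂ 2 μ) '' Cv G n) := by
    rw [← convexHull_koop hμ n]; exact hK
  replace hmin : ∀ k ∈ closure ((ContinuousMap.toLp 2 μ ℂ : C(UnitAddCircle, ℂ) →L[ℂ] Lp ℂ 2 μ) '' Cv G n),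
      ‖h‖ ≤ ‖k‖ := by
    rw [← convexHull_koop hμ n]; exact hmin
  refine ⟨h, ?_, fun P hP => ?_, fun ε hε => ?_⟩
  · apply ae_eq_condExp_of_forall_setIntegral_eq (inva_le G μ) (integrable_cont μ (fourier n))
    · intro s _ _
      exact ((Lp.memLp h).integrable (by norm_num)).integrableOn
    · intro s hs _
      have hs' : MeasurableSet s := hs.1
      have hcl : IsClosed {k : Lp ℂ 2 μ | ∫ x in s, k x ∂μ = ∫ x in s, (fourier n x : ℂ) ∂μ} := by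
        refine isClosed_eq ?_ continuous_const
        have e : ∀ k : Lp ℂ 2 μ, ∫ x in s, k x ∂μ =
            ⟪indicatorConstLp 2 hs' (measure_ne_top μ s) (1 : ℂ), k⟫_ℂ := fun k =>
          (L2.inner_indicatorConstLp_one hs' (measure_ne_top μ s) k).symm
        simp_rw [e]
        exact continuous_const.inner continuous_id
      refine closure_minimal ?_ hcl hK
      rintro _ ⟨P, hP, rfl⟩
      simp only [mem_ofPred_eq]
      rw [← setIntegral_Cv hμ hs' hs.2 hP]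
      exact integral_congr_ae (ae_restrict_of_ae (ContinuousMap.coeFn_toLp (p := 2) (𝕜 := ℂ) μ P))
    · have hm : Measurable[inva G μ] (h : UnitAddCircle → ℂ) := by
        intro B hB
        refine ⟨(Lp.stronglyMeasurable h).measurable hB, fun g hg => ?_⟩
        have h1 := koop_coe hμ ⟨g, hg⟩ h
        rw [hinv] at h1
        rw [← preimage_comp]
        exact (h1.symm.preimage B)
      exact hm.stronglyMeasurable.aestronglyMeasurable
  · rw [← normsq_toLp (μ := μ)]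
    have := hmin _ (subset_closure ⟨P, hP, rfl⟩)
    exact pow_le_pow_left₀ (norm_nonneg _) this 2
  · have hc : ContinuousAt (fun k : Lp ℂ 2 μ => ‖k‖ ^ 2) h := by fun_prop
    have h1 : ∀ᶠ k in 𝓝 h, ‖k‖ ^ 2 < ‖h‖ ^ 2 + ε := hc.eventually_lt_const (by simp [hε])
    obtain ⟨k, hk, P, hP, rfl⟩ := mem_closure_iff_nhds.1 hK _ h1
    exact ⟨P, hP, by rw [← normsq_toLp (μ := μ)]; exact hk⟩

/-- the ergodic components -/
noncomputable def comp (G : Submonoid ℕ) (μ : Measure UnitAddCircle) [IsProbabilityMeasure μ]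
    (ω : UnitAddCircle) : Measure UnitAddCircle := condExpKernel μ (inva G μ) ω

instance (ω : UnitAddCircle) : IsProbabilityMeasure (comp G μ ω) := by
  unfold comp; infer_instance

theorem integral_iterate {f : UnitAddCircle → ℝ} (hf : Integrable f μ) :
    ∫ ω, ∫ x, f x ∂(comp G μ ω) ∂μ = ∫ x, f x ∂μ := by
  rw [← integral_condExp (inva_le G μ) (f := f)]
  exact (integral_congr_ae (condExp_ae_eq_integral_condExpKernel (inva_le G μ) hf)).symm

theorem cf_comp_ae (n : ℤ) :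
    (fun ω => cf (comp G μ ω) n) =ᵐ[μ] μ[fun x => (fourier n x : ℂ) | inva G μ] :=
  (condExp_ae_eq_integral_condExpKernel (inva_le G μ) (integrable_cont μ (fourier n))).symm

theorem measurable_comp {E : Set UnitAddCircle} (hE : MeasurableSet E) :
    Measurable (fun ω => comp G μ ω E) :=
  (measurable_condExpKernel (m := inva G μ) hE).mono (inva_le G μ) le_rfl

theorem measurable_cf_comp (n : ℤ) : Measurable (fun ω => cf (comp G μ ω) n) := by
  have h1 : StronglyMeasurable[inva G μ] (fun ω => ∫ x, (fourier n x : ℂ) ∂(condExpKernel μ (inva G μ) ω)) :=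
    StronglyMeasurable.integral_condExpKernel (fourier n).continuous.stronglyMeasurable
  exact h1.measurable.mono (inva_le G μ) le_rfl

theorem comp_inv (hμ : ∀ g ∈ G, Inv g μ) : ∀ᵐ ω ∂μ, ∀ g ∈ G, Inv g (comp G μ ω) := by
  have h1 : ∀ n : ℤ, ∀ g : G, ∀ᵐ ω ∂μ, cf (comp G μ ω) (n * (g : ℕ)) = cf (comp G μ ω) n := by
    intro n g
    have h2 : μ[fun x => (fourier (n * (g : ℕ)) x : ℂ) | inva G μ] =ᵐ[μ]
        μ[fun x => (fourier n x : ℂ) | inva G μ] := by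
      apply ae_eq_condExp_of_forall_setIntegral_eq (inva_le G μ) (integrable_cont μ (fourier n))
      · intro s _ _
        exact integrable_condExp.integrableOn
      · intro s hs _
        rw [setIntegral_condExp (inva_le G μ) (integrable_cont μ _) hs]
        exact setIntegral_Cv hμ hs.1 hs.2 (subset_convexHull ℝ _ ⟨g, rfl⟩)
      · exact stronglyMeasurable_condExp.aestronglyMeasurable
    filter_upwards [cf_comp_ae (G := G) (μ := μ) (n * (g : ℕ)), cf_comp_ae (G := G) (μ := μ) n, h2]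
      with ω e1 e2 e3
    rw [e1, e2, e3]
  have h3 : ∀ᵐ ω ∂μ, ∀ n : ℤ, ∀ g : G, cf (comp G μ ω) (n * (g : ℕ)) = cf (comp G μ ω) n := by
    rw [ae_all_iff]; intro n
    rw [ae_all_iff]; intro g
    exact h1 n g
  filter_upwards [h3] with ω hω g hg
  rw [inv_iff]
  intro n
  exact hω n ⟨g, hg⟩

/-- the second moments of the Fourier coefficients of the ergodic components -/
theorem second_moment (hμ : ∀ g ∈ G, Inv g μ) (n : ℤ) :
    (∀ P ∈ Cv G n, ∫ ω, ‖cf (comp G μ ω) n‖ ^ 2 ∂μ ≤ ∫ x, ‖P x‖ ^ 2 ∂μ) ∧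
      ∀ ε : ℝ, 0 < ε → ∃ P ∈ Cv G n, ∫ x, ‖P x‖ ^ 2 ∂μ < ∫ ω, ‖cf (comp G μ ω) n‖ ^ 2 ∂μ + ε := by
  obtain ⟨h, h1, h2, h3⟩ := mean_ergodic hμ n
  have e : ‖h‖ ^ 2 = ∫ ω, ‖cf (comp G μ ω) n‖ ^ 2 ∂μ := by
    rw [normsq]
    apply integral_congr_ae
    filter_upwards [h1, cf_comp_ae (G := G) (μ := μ) n] with x e1 e2
    rw [e1, e2]
  rw [← e]
  exact ⟨h2, h3⟩

theorem norm_cf_le (ρ : Measure UnitAddCircle) [IsProbabilityMeasure ρ] (n : ℤ) : ‖cf ρ n‖ ≤ 1 := by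
  refine (norm_integral_le_integral_norm _).trans ?_
  simp_rw [norm_fourier_eq]
  simp

theorem sq_cf_le {ρ : Measure UnitAddCircle} [IsProbabilityMeasure ρ] (hρ : ∀ g ∈ G, Inv g ρ) {n : ℤ}
    {P : C(UnitAddCircle, ℂ)} (hP : P ∈ Cv G n) : ‖cf ρ n‖ ^ 2 ≤ ∫ x, ‖P x‖ ^ 2 ∂ρ := by
  rw [← integral_Cv hρ hP]
  have hint : Integrable (fun x => ‖P x‖) ρ := (integrable_cont ρ P).norm
  have hint2 : Integrable (fun x => ‖P x‖ ^ 2) ρ := by
    have : Continuous (fun x => ‖P x‖ ^ 2) := by fun_prop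
    exact this.integrable_of_hasCompactSupport (HasCompactSupport.of_compactSpace _)
  have e3 : (∫ x, ‖P x‖ ∂ρ) ^ 2 ≤ ∫ x, ‖P x‖ ^ 2 ∂ρ := by
    set t := ∫ x, ‖P x‖ ∂ρ with ht
    have h5 : 0 ≤ ∫ x, (‖P x‖ - t) ^ 2 ∂ρ := integral_nonneg fun x => sq_nonneg _
    have h6 : ∫ x, (‖P x‖ - t) ^ 2 ∂ρ = ∫ x, ‖P x‖ ^ 2 ∂ρ - 2 * t * t + t ^ 2 := by
      have : ∀ x, (‖P x‖ - t) ^ 2 = ‖P x‖ ^ 2 - 2 * t * ‖P x‖ + t ^ 2 := by
        intro x; ring
      simp_rw [this]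
      rw [integral_add (f := fun x => ‖P x‖ ^ 2 - 2 * t * ‖P x‖) (g := fun _ => t ^ 2)
          (hint2.sub (hint.const_mul _)) (integrable_const _),
        integral_sub (f := fun x => ‖P x‖ ^ 2) (g := fun x => 2 * t * ‖P x‖)
          hint2 (hint.const_mul _), integral_const_mul, ← ht]
      simp
    rw [h6] at h5
    nlinarith
  refine le_trans ?_ e3
  exact pow_le_pow_left₀ (norm_nonneg _) (norm_integral_le_integral_norm _) 2

theorem comp_erg (hμ : ∀ g ∈ G, Inv g μ) : ∀ᵐ ω ∂μ, Erg G (comp G μ ω) := by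
  have hinv := comp_inv hμ
  have key : ∀ (n : ℤ) (m : ℕ), ∀ᵐ ω ∂μ, ∃ P ∈ Cv G n,
      ∫ x, ‖P x‖ ^ 2 ∂(comp G μ ω) - ‖cf (comp G μ ω) n‖ ^ 2 < 1 / ((m : ℝ) + 1) := by
    intro n m
    set ε : ℝ := 1 / ((m : ℝ) + 1) with hε
    have hε0 : 0 < ε := by positivity
    have hP := fun j : ℕ => (second_moment hμ n).2 (1 / ((j : ℝ) + 1)) (by positivity)
    choose P hPC hPlt using hP
    set V : ℕ → UnitAddCircle → ℝ := fun j ω =>
      ∫ x, ‖P j x‖ ^ 2 ∂(comp G μ ω) - ‖cf (comp G μ ω) n‖ ^ 2 with hV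
    have hcont : ∀ j, Integrable (fun x => ‖P j x‖ ^ 2) μ := by
      intro j
      have : Continuous (fun x => ‖P j x‖ ^ 2) := by fun_prop
      exact this.integrable_of_hasCompactSupport (HasCompactSupport.of_compactSpace _)
    have hi1 : ∀ j, Integrable (fun ω => ∫ x, ‖P j x‖ ^ 2 ∂(comp G μ ω)) μ := by
      intro j
      exact (hcont j).integral_condExpKernel
    have hi2 : Integrable (fun ω => ‖cf (comp G μ ω) n‖ ^ 2) μ := by
      refine Integrable.of_bound ((measurable_cf_comp n).norm.pow_const 2).aestronglyMeasurable 1 ?_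
      filter_upwards with ω
      rw [Real.norm_of_nonneg (by positivity)]
      exact pow_le_one₀ (norm_nonneg _) (norm_cf_le _ _)
    have hVint : ∀ j, Integrable (V j) μ := fun j => (hi1 j).sub hi2
    have hVlt : ∀ j : ℕ, ∫ ω, V j ω ∂μ < 1 / ((j : ℝ) + 1) := by
      intro j
      have e1 : ∫ ω, V j ω ∂μ = ∫ x, ‖P j x‖ ^ 2 ∂μ - ∫ ω, ‖cf (comp G μ ω) n‖ ^ 2 ∂μ := by
        rw [hV]
        rw [integral_sub (f := fun ω => ∫ x, ‖P j x‖ ^ 2 ∂(comp G μ ω))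
          (g := fun ω => ‖cf (comp G μ ω) n‖ ^ 2) (hi1 j) hi2]
        congr 1
        exact integral_iterate (hcont j)
      rw [e1]
      linarith [hPlt j]
    have hV0 : ∀ j, 0 ≤ᵐ[μ] V j := by
      intro j
      filter_upwards [hinv] with ω hω
      simp only [hV, Pi.zero_apply, sub_nonneg]
      exact sq_cf_le hω (hPC j)
    have hB : μ.real {ω | ∀ j, ε ≤ V j ω} = 0 := by
      have h1 : ∀ j : ℕ, ε * μ.real {ω | ∀ j, ε ≤ V j ω} ≤ 1 / ((j : ℝ) + 1) := by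
        intro j
        have h2 := mul_meas_ge_le_integral_of_nonneg (hV0 j) (hVint j) ε
        have h3 : μ.real {ω | ∀ j, ε ≤ V j ω} ≤ μ.real {ω | ε ≤ V j ω} :=
          measureReal_mono fun ω hω => hω j
        nlinarith [hVlt j]
      have h4 : ε * μ.real {ω | ∀ j, ε ≤ V j ω} ≤ 0 :=
        ge_of_tendsto' tendsto_one_div_add_atTop_nhds_zero_nat h1
      have h5 : 0 ≤ μ.real {ω | ∀ j, ε ≤ V j ω} := measureReal_nonneg
      nlinarith
    have hB' : μ {ω | ∀ j, ε ≤ V j ω} = 0 := by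
      rwa [measureReal_eq_zero_iff] at hB
    have h6 : ∀ᵐ ω ∂μ, ¬ ∀ j, ε ≤ V j ω := by
      rw [ae_iff]; simpa using hB'
    filter_upwards [h6] with ω hω
    push Not at hω
    obtain ⟨j, hj⟩ := hω
    exact ⟨P j, hPC j, hj⟩
  have h7 : ∀ᵐ ω ∂μ, ∀ (n : ℤ) (m : ℕ), ∃ P ∈ Cv G n,
      ∫ x, ‖P x‖ ^ 2 ∂(comp G μ ω) - ‖cf (comp G μ ω) n‖ ^ 2 < 1 / ((m : ℝ) + 1) := by
    rw [ae_all_iff]; intro n
    rw [ae_all_iff]; intro m
    exact key n m
  filter_upwards [hinv, h7] with ω h8 h9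
  refine erg_of_Cv h8 fun n ε hε => ?_
  obtain ⟨m, hm⟩ := exists_nat_one_div_lt hε
  obtain ⟨P, hP, hlt⟩ := h9 n m
  exact ⟨P, hP, hlt.trans hm⟩

/-- the measure is the average of its components -/
theorem lintegral_comp {E : Set UnitAddCircle} (hE : MeasurableSet E) :
    ∫⁻ ω, comp G μ ω E ∂μ = μ E := by
  have h1 := condExpKernel_comp_trim (μ := μ) (inva_le G μ)
  have h2 := congrArg (fun m : Measure UnitAddCircle => m E) h1
  beta_reduce at h2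
  rw [Measure.bind_apply hE (Kernel.aemeasurable _)] at h2
  rw [← h2]
  exact (lintegral_trim (inva_le G μ) (measurable_condExpKernel hE)).symm

end Pool.Agent.H185.XQ
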