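import Pool.Agent.H185.XQ.Seq

/-!
# Dilates of atomless invariant measures
-/

set_option autoImplicit false
set_option linter.unusedSectionVars false

open MeasureTheory Filter Topology Set ProbabilityTheory
open scoped InnerProductSpace ComplexConjugate ENNReal

namespace Pool.Agent.H185.XQ

/-- the image of a measure under multiplication by `n` -/
noncomputable def dil (n : ℕ) (μ : Measure UnitAddCircle) : Measure UnitAddCircle :=
  μ.map (fun x => n • x)

instance (n : ℕ) (μ : Measure UnitAddCircle) [IsProbabilityMeasure μ] :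
    IsProbabilityMeasure (dil n μ) :=
  Measure.isProbabilityMeasure_map (measurable_smul' n).aemeasurable

theorem cf_dil (n : ℕ) (μ : Measure UnitAddCircle) (m : ℤ) : cf (dil n μ) m = cf μ (m * n) := cf_map μ n m

theorem dil_atomless {n : ℕ} (hn : 0 < n) {μ : Measure UnitAddCircle} (hat : ∀ x, μ {x} = 0)
    (x : UnitAddCircle) : dil n μ {x} = 0 := by
  rw [dil, Measure.map_apply (measurable_smul' n) (measurableSet_singleton x)]
  have hfin : ((fun y : UnitAddCircle => n • y) ⁻¹' {x}).Finite := by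
    by_cases h : ((fun y : UnitAddCircle => n • y) ⁻¹' {x}).Nonempty
    · obtain ⟨y₀, hy₀⟩ := h
      refine ((AddCircle.finite_torsion (1 : ℝ) hn).image (fun y => y + y₀)).subset ?_
      intro y hy
      refine ⟨y - y₀, ?_, by simp⟩
      simp only [mem_preimage, mem_singleton_iff] at hy hy₀
      simp only [mem_ofPred_eq, nsmul_sub, hy, hy₀, sub_self]
    · rw [not_nonempty_iff_eq_empty.1 h]; exact finite_empty
  rw [← biUnion_of_singleton ((fun y : UnitAddCircle => n • y) ⁻¹' {x})]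
  exact (measure_biUnion_null_iff hfin.countable).2 fun x _ => hat x

theorem dil_inv {s : ℕ} (n : ℕ) {μ : Measure UnitAddCircle} [IsProbabilityMeasure μ] (h : Inv s μ) :
    Inv s (dil n μ) := by
  rw [inv_iff] at h ⊢
  intro m
  rw [cf_dil, cf_dil, mul_right_comm, h]

theorem dil_erg {S : Set ℕ} (n : ℕ) {μ : Measure UnitAddCircle}
    (h : ∀ E : Set UnitAddCircle, MeasurableSet E →
      (∀ s ∈ S, (fun x : UnitAddCircle => s • x) ⁻¹' E = E) → μ E = 0 ∨ μ E = 1)
    (E : Set UnitAddCircle) (hE : MeasurableSet E)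
    (hEi : ∀ s ∈ S, (fun x : UnitAddCircle => s • x) ⁻¹' E = E) : dil n μ E = 0 ∨ dil n μ E = 1 := by
  rw [dil, Measure.map_apply (measurable_smul' n) hE]
  refine h _ (measurable_smul' n hE) fun s hs => ?_
  rw [← preimage_comp]
  have e : (fun x : UnitAddCircle => n • x) ∘ (fun x => s • x) =
      (fun x : UnitAddCircle => s • x) ∘ (fun x => n • x) := by
    ext x
    simp only [Function.comp_apply]
    rw [smul_comm]
  rw [e, preimage_comp, hEi s hs]

theorem dil_mem {S : Set ℕ} {n : ℕ} (hn : 0 < n) {μ : Measure UnitAddCircle} (h : μ ∈ AE S) :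
    dil n μ ∈ AE S := by
  have := h.1
  exact ⟨inferInstance, dil_atomless hn h.2.1, fun s hs => dil_inv n (h.2.2.1 s hs),
    dil_erg n h.2.2.2⟩

theorem cf_translate (μ : Measure UnitAddCircle) (t : UnitAddCircle) (k : ℤ) :
    cf (μ.map (fun x => x + t)) k = fourier k t * cf μ k := by
  rw [cf, integral_map (by fun_prop) (fourier k).continuous.aestronglyMeasurable, cf,
    ← integral_const_mul]
  congr 1
  ext x
  rw [fourier_apply, fourier_apply, fourier_apply, smul_add, AddCircle.toCircle_add, Circle.coe_mul,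
    mul_comm]

theorem sum_root (n : ℕ) (hn : 0 < n) (k : ℤ) (hk : ¬ (n : ℤ) ∣ k) :
    ∑ j ∈ Finset.range n, (fourier k (((j : ℝ) / n : ℝ) : UnitAddCircle) : ℂ) = 0 := by
  set z : ℂ := fourier k (((1 : ℝ) / n : ℝ) : UnitAddCircle) with hz
  have hn' : (n : ℂ) ≠ 0 := by exact_mod_cast hn.ne'
  have h1 : ∀ j : ℕ, (fourier k (((j : ℝ) / n : ℝ) : UnitAddCircle) : ℂ) = z ^ j := by
    intro j
    rw [hz, fourier_coe_apply, fourier_coe_apply, ← Complex.exp_nat_mul]
    congr 1
    push_cast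
    field_simp
  simp_rw [h1]
  have hz1 : z ≠ 1 := by
    intro h
    rw [hz, fourier_coe_apply, Complex.exp_eq_one_iff] at h
    obtain ⟨m, hm⟩ := h
    apply hk
    refine ⟨m, ?_⟩
    have h2 : (k : ℂ) = n * m := by
      have h3 : (2 * Real.pi * Complex.I : ℂ) ≠ 0 := Complex.two_pi_I_ne_zero
      have h4 : (2 * Real.pi * Complex.I : ℂ) * (k / n) = (2 * Real.pi * Complex.I : ℂ) * m := by
        rw [mul_comm _ (m : ℂ), ← hm]
        push_cast
        field_simp
      have h5 := mul_left_cancel₀ h3 h4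
      rw [div_eq_iff hn'] at h5
      rw [h5, mul_comm]
    exact_mod_cast h2
  have hzn : z ^ n = 1 := by
    rw [← h1 n, div_self (by exact_mod_cast hn.ne')]
    have : ((1 : ℝ) : UnitAddCircle) = 0 := AddCircle.coe_period 1
    rw [this, fourier_eval_zero]
  rw [geom_sum_eq hz1, hzn, sub_self, zero_div]

/-- only Lebesgue measure has the dilate Lebesgue measure, among the measures invariant under a
multiplication by `p ≥ 2` -/
theorem eq_volume_of_dil {p : ℕ} (hp : 2 ≤ p) {μ : Measure UnitAddCircle} [IsProbabilityMeasure μ]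
    (hμ : Inv p μ) {n : ℕ} (hn : 0 < n) (h : dil n μ = volume) : μ = volume := by
  have herg := AddCircle.ergodic_nsmul (T := (1 : ℝ)) (n := p) (by omega)
  refine herg.eq_of_absolutelyContinuous hμ ?_
  set ρ : Measure UnitAddCircle :=
    ∑ j ∈ Finset.range n, μ.map (fun x => x + (((j : ℝ) / n : ℝ) : UnitAddCircle)) with hρ
  have hfin : ∀ j : ℕ, IsFiniteMeasure (μ.map (fun x => x + (((j : ℝ) / n : ℝ) : UnitAddCircle))) :=
    fun j => inferInstance
  have hcf : ∀ k, cf ρ k = (∑ j ∈ Finset.range n, (fourier k (((j : ℝ) / n : ℝ) : UnitAddCircle) : ℂ)) *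
      cf μ k := by
    intro k
    rw [cf, hρ, integral_finsetSum_measure (fun j _ => integrable_cont _ _), Finset.sum_mul]
    exact Finset.sum_congr rfl fun j _ => cf_translate μ _ k
  have hρv : ρ = (n : ℝ≥0∞) • (volume : Measure UnitAddCircle) := by
    have i1 : IsFiniteMeasure ρ := by rw [hρ]; infer_instance
    have i2 : IsFiniteMeasure ((n : ℝ≥0∞) • (volume : Measure UnitAddCircle)) :=
      Measure.smul_finite _ (by simp)
    refine ext_cf fun k => ?_
    have e : cf ((n : ℝ≥0∞) • (volume : Measure UnitAddCircle)) k = n * cf volume k := by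
      show ∫ x, (fourier k x : ℂ) ∂((n : ℝ≥0∞) • (volume : Measure UnitAddCircle)) = _
      rw [integral_smul_measure]
      simp [cf]
    rw [hcf, e]
    by_cases hk0 : k = 0
    · subst hk0
      simp [cf_zero]
    · rw [cf_volume hk0, mul_zero]
      by_cases hk : (n : ℤ) ∣ k
      · obtain ⟨m, rfl⟩ := hk
        have h1 := congrArg (fun ν => cf ν m) h
        beta_reduce at h1
        rw [cf_dil, cf_volume (by rintro rfl; simp at hk0), mul_comm] at h1
        rw [h1, mul_zero]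
      · rw [sum_root n hn k hk, zero_mul]
  intro A hA
  obtain ⟨B, hAB, hBm, hB0⟩ := exists_measurable_superset_of_null hA
  refine measure_mono_null hAB ?_
  have h1 : ρ B = 0 := by rw [hρv]; simp [hB0]
  rw [hρ, Measure.finsetSum_apply] at h1
  have h2 := (Finset.sum_eq_zero_iff.1 h1) 0 (Finset.mem_range.2 hn)
  have e0 : (fun x : UnitAddCircle => x + ((((0 : ℕ) : ℝ) / n : ℝ) : UnitAddCircle)) = id := by
    ext x; simp
  rw [e0, Measure.map_id] at h2
  exact h2

/-- the reflected measure -/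
noncomputable def refl (μ : Measure UnitAddCircle) : Measure UnitAddCircle := μ.map (fun x => -x)

instance (μ : Measure UnitAddCircle) [IsProbabilityMeasure μ] : IsProbabilityMeasure (refl μ) :=
  Measure.isProbabilityMeasure_map (by fun_prop)

theorem cf_conj (μ : Measure UnitAddCircle) (k : ℤ) : cf μ (-k) = conj (cf μ k) := by
  rw [cf, cf, ← integral_conj]
  simp_rw [fourier_neg]

theorem cf_refl (μ : Measure UnitAddCircle) (k : ℤ) : cf (refl μ) k = conj (cf μ k) := by
  rw [← cf_conj, cf, refl, integral_map (by fun_prop) (fourier k).continuous.aestronglyMeasurable, cf]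
  congr 1
  ext x
  rw [fourier_apply, fourier_apply, smul_neg, neg_smul]

/-- squares of the moduli of the Fourier coefficients -/
theorem cf_symm (μ : Measure UnitAddCircle) [IsProbabilityMeasure μ] (k : ℤ) :
    cf (μ.conv (refl μ)) k = ((‖cf μ k‖ ^ 2 : ℝ) : ℂ) := by
  rw [cf_conv, cf_refl, Complex.mul_conj, Complex.normSq_eq_norm_sq]

theorem wiener {ν : Measure UnitAddCircle} [IsProbabilityMeasure ν] (hat : ∀ x, ν {x} = 0) {m : ℤ}
    (hm : m ≠ 0) :
    Tendsto (fun N : ℕ => (N : ℂ)⁻¹ * ∑ n ∈ Finset.range N, cf ν (m * n)) atTop (𝓝 0) := by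
  have h1 : Tendsto (fun N : ℕ => ∫ x, (N : ℂ)⁻¹ * ∑ n ∈ Finset.range N, (fourier (m * n) x : ℂ) ∂ν) atTop
      (𝓝 (∫ _, (0 : ℂ) ∂ν)) := by
    refine tendsto_integral_of_dominated_convergence (fun _ => (1 : ℝ)) (fun N => ?_)
      (integrable_const _) (fun N => ?_) ?_
    · have : Continuous (fun x : UnitAddCircle => (N : ℂ)⁻¹ * ∑ n ∈ Finset.range N,
        (fourier (m * n) x : ℂ)) := by fun_prop
      exact this.aestronglyMeasurable
    · filter_upwards with x
      rw [norm_mul, norm_inv, Complex.norm_natCast]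
      have h2 : ‖∑ n ∈ Finset.range N, (fourier (m * n) x : ℂ)‖ ≤ N := by
        refine (norm_sum_le _ _).trans ?_
        simp_rw [norm_fourier_eq]
        simp
      rcases Nat.eq_zero_or_pos N with h3 | h3
      · subst h3; simp
      · rw [inv_mul_le_iff₀ (by exact_mod_cast h3), mul_one]
        exact h2
    · have h0 : ν {x : UnitAddCircle | (fourier m x : ℂ) = 1} = 0 := by
        rw [← biUnion_of_singleton {x : UnitAddCircle | (fourier m x : ℂ) = 1}]
        exact (measure_biUnion_null_iff (fourier_one_finite m hm).countable).2 fun x _ => hat x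
      have h2 : ∀ᵐ x ∂ν, (fourier m x : ℂ) ≠ 1 := by
        rw [ae_iff]; simpa using h0
      filter_upwards [h2] with x hx
      set z : ℂ := fourier m x with hz
      have e : ∀ n : ℕ, (fourier (m * n) x : ℂ) = z ^ n := by
        intro n
        rw [hz, fourier_apply, fourier_apply, ← Circle.coe_pow, ← AddCircle.toCircle_nsmul, ← natCast_zsmul,
          ← mul_smul, mul_comm]
      simp_rw [e]
      have hznorm : ‖z‖ = 1 := norm_fourier_eq m x
      rw [tendsto_zero_iff_norm_tendsto_zero]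
      have h3 : Tendsto (fun N : ℕ => (2 / ‖z - 1‖) * ((N : ℝ))⁻¹) atTop (𝓝 (2 / ‖z - 1‖ * 0)) :=
        tendsto_inv_atTop_nhds_zero_nat.const_mul _
      rw [mul_zero] at h3
      refine squeeze_zero (fun N => norm_nonneg _) (fun N => ?_) h3
      rw [geom_sum_eq hx, norm_mul, norm_div, norm_inv, Complex.norm_natCast, mul_comm]
      have h4 : ‖z ^ N - 1‖ ≤ 2 := by
        calc ‖z ^ N - 1‖ ≤ ‖z ^ N‖ + ‖(1 : ℂ)‖ := norm_sub_le _ _
          _ = 2 := by rw [norm_pow, hznorm]; norm_num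
      gcongr
  rw [integral_zero] at h1
  refine h1.congr fun N => ?_
  rw [integral_const_mul, integral_finsetSum]
  · rfl
  · intro n _; exact integrable_cont ν _

/-- Wiener's lemma along multiples -/
theorem wiener_sq {μ : Measure UnitAddCircle} [IsProbabilityMeasure μ] (hat : ∀ x, μ {x} = 0) {m : ℤ}
    (hm : m ≠ 0) :
    Tendsto (fun N : ℕ => (N : ℝ)⁻¹ * ∑ n ∈ Finset.range N, ‖cf μ (m * n)‖ ^ 2) atTop (𝓝 0) := by
  have h1 := wiener (ν := μ.conv (refl μ)) (conv_atomless μ (refl μ) hat) hm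
  simp_rw [cf_symm] at h1
  have h2 := (Complex.continuous_re.tendsto _).comp h1
  refine (h2.congr fun N => ?_)
  simp only [Function.comp_apply]
  rw [← Complex.ofReal_sum, ← Complex.ofReal_natCast, ← Complex.ofReal_inv, ← Complex.ofReal_mul,
    Complex.ofReal_re]

/-- the dilates of an atomless measure have Lebesgue measure as a limit -/
theorem exists_dil {μ : Measure UnitAddCircle} [IsProbabilityMeasure μ] (hat : ∀ x, μ {x} = 0)
    (M : ℕ) {ε : ℝ} (hε : 0 < ε) :
    ∃ n : ℕ, 0 < n ∧ ∀ m : ℤ, m ≠ 0 → |m| ≤ M → ‖cf (dil n μ) m‖ < ε := by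
  set F : Finset ℤ := (Finset.Icc (-(M : ℤ)) M).erase 0 with hF
  have hF0 : ∀ n ∈ F, n ≠ 0 := fun n hn => (Finset.mem_erase.1 hn).1
  have h1 : Tendsto (fun N : ℕ => ∑ m ∈ F, (N : ℝ)⁻¹ * ∑ n ∈ Finset.range N, ‖cf μ (m * n)‖ ^ 2) atTop
      (𝓝 (∑ m ∈ F, 0)) := tendsto_finsetSum _ fun m hm => wiener_sq hat (hF0 m hm)
  rw [Finset.sum_const_zero] at h1
  obtain ⟨N, hN, hN2⟩ := ((h1.eventually_lt_const (show 0 < ε ^ 2 / 2 by positivity)).and
    (eventually_ge_atTop 2)).exists
  by_contra hcon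
  push Not at hcon
  have hNpos : (0 : ℝ) < N := by positivity
  have h2 : ∑ m ∈ F, (N : ℝ)⁻¹ * ∑ n ∈ Finset.range N, ‖cf μ (m * n)‖ ^ 2 =
      (N : ℝ)⁻¹ * ∑ n ∈ Finset.range N, ∑ m ∈ F, ‖cf μ (m * n)‖ ^ 2 := by
    rw [← Finset.mul_sum, Finset.sum_comm]
  have h3 : ∀ n ∈ (Finset.range N).erase 0, ε ^ 2 ≤ ∑ m ∈ F, ‖cf μ (m * n)‖ ^ 2 := by
    intro n hn
    obtain ⟨m, hm0, hmM, hmε⟩ := hcon n (Nat.pos_of_ne_zero (Finset.mem_erase.1 hn).1)
    have hmF : m ∈ F := by
      rw [hF, Finset.mem_erase, Finset.mem_Icc]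
      exact ⟨hm0, abs_le.1 hmM⟩
    rw [cf_dil] at hmε
    exact (pow_le_pow_left₀ hε.le hmε 2).trans
      (Finset.single_le_sum (f := fun m => ‖cf μ (m * n)‖ ^ 2) (fun m _ => by positivity) hmF)
  have h4 : ((N : ℝ) - 1) * ε ^ 2 ≤ ∑ n ∈ Finset.range N, ∑ m ∈ F, ‖cf μ (m * n)‖ ^ 2 := by
    have h5 := Finset.card_nsmul_le_sum _ _ _ h3
    have h6 : ((Finset.range N).erase 0).card = N - 1 := by
      rw [Finset.card_erase_of_mem (Finset.mem_range.2 (by omega)), Finset.card_range]
    rw [h6, nsmul_eq_mul, Nat.cast_sub (by omega), Nat.cast_one] at h5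
    refine h5.trans (Finset.sum_le_sum_of_subset_of_nonneg (Finset.erase_subset _ _)
      fun n _ _ => Finset.sum_nonneg fun m _ => by positivity)
  rw [h2, inv_mul_lt_iff₀ hNpos] at hN
  have h7 : (2 : ℝ) ≤ N := by exact_mod_cast hN2
  nlinarith [sq_nonneg ε, pow_pos hε 2]

theorem exists_erg {S : Set ℕ} (hS : ∃ p ∈ S, 2 ≤ p) {μ : Measure UnitAddCircle} [IsProbabilityMeasure μ]
    (hat : ∀ x, μ {x} = 0) (hμ : ∀ s ∈ S, Inv s μ) (hne : μ ≠ volume) : ∃ ρ ∈ AE S, ρ ≠ volume := by
  by_contra hcon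
  push Not at hcon
  apply hne
  have h1 := comp_mem hat hμ hS
  refine ext_cf fun n => ?_
  rw [cf_eq_integral_comp (Submonoid.closure S) n]
  have h2 : (fun ω => cf (comp (Submonoid.closure S) μ ω) n) =ᵐ[μ] fun _ => cf volume n := by
    filter_upwards [h1] with ω hω
    rw [hcon _ hω]
  rw [integral_congr_ae h2]
  simp

theorem not_isolated {S : Set ℕ} (hS : ∃ p ∈ S, 2 ≤ p) {μ : Measure UnitAddCircle}
    [IsProbabilityMeasure μ] (hat : ∀ x, μ {x} = 0) (hμ : ∀ s ∈ S, Inv s μ) (hne : μ ≠ volume) :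
    ¬ Isolated S := by
  rintro ⟨ε, hε, N, h⟩
  obtain ⟨ρ, hρ, hρne⟩ := exists_erg hS hat hμ hne
  obtain ⟨p, hpS, hp⟩ := hS
  have := hρ.1
  obtain ⟨n, hn, hn'⟩ := exists_dil hρ.2.1 N hε
  exact hρne (eq_volume_of_dil hp (hρ.2.2.1 p hpS) hn (h _ (dil_mem hn hρ) hn'))

end Pool.Agent.H185.XQ
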