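import Pool.Agent.H185.XQ.Iso

/-!
# Isolation, total variation convergence of the convolution powers, and entropy
-/

set_option autoImplicit false
set_option linter.unusedSectionVars false

open MeasureTheory Filter Topology Set ProbabilityTheory
open scoped InnerProductSpace ComplexConjugate ENNReal

namespace Pool.Agent.H185.XQ

/-- Lebesgue measure is isolated among the atomless ergodic measures -/
def Isolated (S : Set ℕ) : Prop :=
  ∃ ε : ℝ, 0 < ε ∧ ∃ N : ℕ, ∀ ρ ∈ AE S, (∀ n : ℤ, n ≠ 0 → |n| ≤ N → ‖cf ρ n‖ < ε) → ρ = volume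

theorem dominate {S : Set ℕ} (hiso : Isolated S) {p : ℕ} (hpS : p ∈ S) (hp : 2 ≤ p)
    {μ : Measure UnitAddCircle} [IsProbabilityMeasure μ] (hat : ∀ x, μ {x} = 0)
    (hμ : ∀ s ∈ S, Inv s μ) {δ : ℝ} (hδ : 0 < δ) :
    ∃ k₀ : ℕ, ∀ k, k₀ ≤ k → ∀ E : Set UnitAddCircle, MeasurableSet E →
      (1 - δ) * (volume : Measure UnitAddCircle).real E ≤ (cpow μ k).real E := by
  obtain ⟨ε, hε, N, hN⟩ := hiso
  set G := Submonoid.closure S
  set F : Finset ℤ := (Finset.Icc (-(N : ℤ)) N).erase 0 with hF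
  have hF0 : ∀ n ∈ F, n ≠ 0 := fun n hn => (Finset.mem_erase.1 hn).1
  have h1 : Tendsto (fun k => ∑ n ∈ F, (ε ^ 2)⁻¹ * ∫ ω, ‖cf (comp G (cpow μ k) ω) n‖ ^ 2 ∂(cpow μ k))
      atTop (𝓝 (∑ n ∈ F, (ε ^ 2)⁻¹ * 0)) :=
    tendsto_finsetSum _ fun n hn =>
      (second_moment_tendsto hpS hp hat hμ (hF0 n hn)).const_mul _
  rw [Finset.sum_congr rfl (fun n _ => mul_zero _), Finset.sum_const_zero] at h1
  obtain ⟨k₀, hk₀⟩ := eventually_atTop.1 (h1.eventually_lt_const hδ)
  refine ⟨k₀, fun k hk E hE => ?_⟩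
  set ν := cpow μ k with hν
  set B : Set UnitAddCircle := ⋃ n ∈ F, {ω | ε ^ 2 ≤ ‖cf (comp G ν ω) n‖ ^ 2} with hB
  have hi2 : ∀ n, Integrable (fun ω => ‖cf (comp G ν ω) n‖ ^ 2) ν := by
    intro n
    refine Integrable.of_bound ((measurable_cf_comp n).norm.pow_const 2).aestronglyMeasurable 1 ?_
    filter_upwards with ω
    rw [Real.norm_of_nonneg (by positivity)]
    exact pow_le_one₀ (norm_nonneg _) (norm_cf_le _ _)
  have hBm : MeasurableSet B :=
    Finset.measurableSet_biUnion _ fun n _ =>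
      measurableSet_le measurable_const ((measurable_cf_comp n).norm.pow_const 2)
  have hBν : ν.real B < δ := by
    refine lt_of_le_of_lt ?_ (hk₀ k hk)
    refine (measureReal_biUnion_finset_le _ _).trans (Finset.sum_le_sum fun n _ => ?_)
    have h2 := mul_meas_ge_le_integral_of_nonneg (μ := ν)
      (f := fun ω => ‖cf (comp G ν ω) n‖ ^ 2) (Filter.Eventually.of_forall fun ω => by positivity)
      (hi2 n) (ε ^ 2)
    rw [inv_mul_eq_div, le_div_iff₀' (by positivity)]
    exact h2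
  have hcomp := comp_mem (μ := ν) (cpow_atomless μ hat k) (fun s hs => cpow_inv (hμ s hs) k) ⟨p, hpS, hp⟩
  have h3 : ∀ᵐ ω ∂ν, ω ∈ Bᶜ → comp G ν ω = volume := by
    filter_upwards [hcomp] with ω hω hωB
    refine hN _ hω fun n hn hnN => ?_
    have hnF : n ∈ F := by
      rw [hF, Finset.mem_erase, Finset.mem_Icc]
      exact ⟨hn, abs_le.1 hnN⟩
    by_contra hcon
    rw [not_lt] at hcon
    apply hωB
    rw [hB]
    simp only [mem_iUnion]
    exact ⟨n, hnF, pow_le_pow_left₀ hε.le hcon 2⟩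
  have h4 : (volume : Measure UnitAddCircle) E * ν Bᶜ ≤ ν E := by
    rw [← lintegral_comp (G := G) (μ := ν) hE]
    calc (volume : Measure UnitAddCircle) E * ν Bᶜ = ∫⁻ ω in Bᶜ, (volume : Measure UnitAddCircle) E ∂ν := by
          rw [setLIntegral_const]
      _ = ∫⁻ ω in Bᶜ, comp G ν ω E ∂ν := by
          apply setLIntegral_congr_fun_ae hBm.compl
          filter_upwards [h3] with ω hω hmem
          rw [hω hmem]
      _ ≤ ∫⁻ ω, comp G ν ω E ∂ν := setLIntegral_le_lintegral _ _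
  have h5 : (volume : Measure UnitAddCircle).real E * ν.real Bᶜ ≤ ν.real E := by
    rw [Measure.real, Measure.real, Measure.real, ← ENNReal.toReal_mul]
    exact ENNReal.toReal_mono (measure_ne_top _ _) h4
  have h6 : ν.real Bᶜ = 1 - ν.real B := by
    rw [measureReal_compl hBm]
    simp
  rw [h6] at h5
  have h7 : 0 ≤ (volume : Measure UnitAddCircle).real E := measureReal_nonneg
  nlinarith

/-- the arcs of the partition of order `N` -/
def arc (p N j : ℕ) : Set UnitAddCircle :=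
  (fun x : ℝ => (x : UnitAddCircle)) '' Ico ((j : ℝ) / p ^ N) (((j : ℝ) + 1) / p ^ N)

/-- the coordinate in `[0, 1)` -/
noncomputable def coo (u : UnitAddCircle) : ℝ := (AddCircle.measurableEquivIco (1 : ℝ) 0 u : ℝ)

theorem coo_mem (u : UnitAddCircle) : coo u ∈ Ico (0 : ℝ) 1 := by
  have := (AddCircle.measurableEquivIco (1 : ℝ) 0 u).2
  exact ⟨this.1, this.2.trans_eq (zero_add 1)⟩

theorem coe_coo (u : UnitAddCircle) : ((coo u : ℝ) : UnitAddCircle) = u :=
  AddCircle.coe_equivIco (a := 0)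

theorem coo_coe {x : ℝ} (hx : x ∈ Ico (0 : ℝ) 1) : coo (x : UnitAddCircle) = x :=
  AddCircle.equivIco_coe_of_mem (a := 0) (by rw [zero_add]; exact hx)

theorem measurable_coo : Measurable coo :=
  measurable_subtype_coe.comp (AddCircle.measurableEquivIco (1 : ℝ) 0).measurable

theorem arc_eq {p N j : ℕ} (hp : 2 ≤ p) (hj : j < p ^ N) :
    arc p N j = coo ⁻¹' (Ico ((j : ℝ) / p ^ N) (((j : ℝ) + 1) / p ^ N)) := by
  have hpN : (0 : ℝ) < (p : ℝ) ^ N := by positivity
  ext u
  constructor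
  · rintro ⟨x, hx, rfl⟩
    have hx1 : x ∈ Ico (0 : ℝ) 1 := by
      refine ⟨le_trans (by positivity) hx.1, hx.2.trans_le ?_⟩
      rw [div_le_one hpN]
      exact_mod_cast hj
    simp only [mem_preimage]
    rw [coo_coe hx1]
    exact hx
  · intro hu
    exact ⟨coo u, hu, coe_coo u⟩

theorem measurableSet_arc {p N j : ℕ} (hp : 2 ≤ p) (hj : j < p ^ N) : MeasurableSet (arc p N j) := by
  rw [arc_eq hp hj]
  exact measurable_coo measurableSet_Ico

theorem arc_disjoint {p N i j : ℕ} (hp : 2 ≤ p) (hi : i < p ^ N) (hj : j < p ^ N) (hij : i ≠ j) :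
    Disjoint (arc p N i) (arc p N j) := by
  have hpN : (0 : ℝ) < (p : ℝ) ^ N := by positivity
  rw [arc_eq hp hi, arc_eq hp hj, Set.disjoint_left]
  rintro u ⟨h1, h2⟩ ⟨h3, h4⟩
  rw [div_le_iff₀ hpN] at h1 h3
  rw [lt_div_iff₀ hpN] at h2 h4
  have h5 : (i : ℝ) < j + 1 := by linarith
  have h6 : (j : ℝ) < i + 1 := by linarith
  have h7 : i < j + 1 := by exact_mod_cast h5
  have h8 : j < i + 1 := by exact_mod_cast h6
  omega

theorem mem_arc {p N : ℕ} (hp : 2 ≤ p) (u : UnitAddCircle) : ∃ j < p ^ N, u ∈ arc p N j := by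
  have hpN : (0 : ℝ) < (p : ℝ) ^ N := by positivity
  have hu := coo_mem u
  have h1 : 0 ≤ coo u * (p : ℝ) ^ N := mul_nonneg hu.1 hpN.le
  have h2 : ⌊coo u * (p : ℝ) ^ N⌋₊ < p ^ N := by
    rw [Nat.floor_lt h1]
    push_cast
    nlinarith [hu.2]
  refine ⟨_, h2, ?_⟩
  rw [arc_eq hp h2]
  simp only [mem_preimage, mem_Ico]
  rw [div_le_iff₀ hpN, lt_div_iff₀ hpN]
  exact ⟨Nat.floor_le h1, Nat.lt_floor_add_one _⟩

/-- the entropy of the partition into arcs of length `p ^ (-N)` -/
noncomputable def ent (p : ℕ) (μ : Measure UnitAddCircle) (N : ℕ) : ℝ :=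
  ∑ j ∈ Finset.range (p ^ N), Real.negMulLog (μ.real (arc p N j))

theorem cover {p : ℕ} (hp : 2 ≤ p) (μ : Measure UnitAddCircle) [IsProbabilityMeasure μ] {N : ℕ}
    (hN : 1 ≤ N) {a : ℝ} (ha : 0 < a) :
    ∃ J : Finset ℕ, (J.card : ℝ) ≤ Real.exp (a * N) ∧ (∀ j ∈ J, j < p ^ N) ∧
      1 - ent p μ N / (a * N) ≤ μ.real (⋃ j ∈ J, arc p N j) := by
  classical
  have haN : 0 < a * N := by positivity
  set m : ℕ → ℝ := fun j => μ.real (arc p N j) with hm
  have hm0 : ∀ j, 0 ≤ m j := fun j => measureReal_nonneg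
  have hm1 : ∀ j, m j ≤ 1 := fun j => measureReal_le_one
  set J : Finset ℕ := (Finset.range (p ^ N)).filter fun j => Real.exp (-(a * N)) ≤ m j with hJ
  have hJlt : ∀ j ∈ J, j < p ^ N := fun j hj => Finset.mem_range.1 (Finset.mem_filter.1 hj).1
  refine ⟨J, ?_, hJlt, ?_⟩
  · have h1 : ∑ j ∈ J, m j ≤ 1 := by
      rw [← measureReal_biUnion_finset (fun i hi j hj hij => arc_disjoint hp (hJlt i hi) (hJlt j hj) hij)
        (fun j hj => measurableSet_arc hp (hJlt j hj))]
      exact measureReal_le_one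
    have h2 : J.card * Real.exp (-(a * N)) ≤ ∑ j ∈ J, m j := by
      rw [← nsmul_eq_mul]
      exact Finset.card_nsmul_le_sum _ _ _ fun j hj => (Finset.mem_filter.1 hj).2
    have h3 : (J.card : ℝ) * Real.exp (-(a * N)) ≤ 1 := h2.trans h1
    rw [Real.exp_neg, ← div_eq_mul_inv, div_le_one (Real.exp_pos _)] at h3
    exact h3
  · set J' : Finset ℕ := (Finset.range (p ^ N)).filter fun j => ¬ Real.exp (-(a * N)) ≤ m j with hJ'
    have h1 : (a * N) * ∑ j ∈ J', m j ≤ ent p μ N := by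
      rw [Finset.mul_sum]
      calc ∑ j ∈ J', a * N * m j ≤ ∑ j ∈ J', Real.negMulLog (m j) := by
            refine Finset.sum_le_sum fun j hj => ?_
            have h4 := (Finset.mem_filter.1 hj).2
            rw [not_le] at h4
            rcases (hm0 j).eq_or_lt with h5 | h5
            · rw [← h5]; simp
            · have h6 : Real.log (m j) < -(a * N) := by
                rw [Real.log_lt_iff_lt_exp h5]; exact h4
              rw [Real.negMulLog]
              nlinarith
        _ ≤ ∑ j ∈ Finset.range (p ^ N), Real.negMulLog (m j) :=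
            Finset.sum_le_sum_of_subset_of_nonneg (Finset.filter_subset _ _)
              fun j _ _ => Real.negMulLog_nonneg (hm0 j) (hm1 j)
    have h2 : μ.real (⋃ j ∈ J, arc p N j)ᶜ ≤ ∑ j ∈ J', m j := by
      refine (measureReal_mono ?_ (measure_ne_top _ _)).trans (measureReal_biUnion_finset_le J' (arc p N))
      intro u hu
      obtain ⟨j, hj, huj⟩ := mem_arc (N := N) hp u
      simp only [mem_iUnion]
      refine ⟨j, ?_, huj⟩
      rw [hJ', Finset.mem_filter, Finset.mem_range]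
      refine ⟨hj, fun h => hu ?_⟩
      simp only [mem_iUnion]
      exact ⟨j, by rw [hJ, Finset.mem_filter, Finset.mem_range]; exact ⟨hj, h⟩, huj⟩
    have h3 : MeasurableSet (⋃ j ∈ J, arc p N j) :=
      Finset.measurableSet_biUnion _ fun j hj => measurableSet_arc hp (hJlt j hj)
    rw [measureReal_compl h3] at h2
    have h4 : ∑ j ∈ J', m j ≤ ent p μ N / (a * N) := by
      rw [le_div_iff₀ haN]; linarith
    have h5 : μ.real univ = 1 := by simp
    rw [h5] at h2
    linarith

theorem arc_subset_ball {p N j : ℕ} :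
    arc p N j ⊆ Metric.closedBall ((((j : ℝ) / p ^ N : ℝ)) : UnitAddCircle) (1 / (p : ℝ) ^ N) := by
  rintro _ ⟨x, hx, rfl⟩
  rw [Metric.mem_closedBall, dist_eq_norm]
  show ‖((x : ℝ) : UnitAddCircle) - (((j : ℝ) / p ^ N : ℝ) : UnitAddCircle)‖ ≤ _
  rw [← AddCircle.coe_sub, UnitAddCircle.norm_eq]
  have h1 := round_le (x - (j : ℝ) / p ^ N) 0
  refine h1.trans ?_
  rw [Int.cast_zero, sub_zero, abs_of_nonneg (by linarith [hx.1])]
  have h2 := hx.2
  rw [add_div] at h2
  linarith

/-- coverings of the convolution powers -/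
theorem cover_cpow (μ : Measure UnitAddCircle) [IsProbabilityMeasure μ] (F : Finset UnitAddCircle)
    {r δ : ℝ} (h : 1 - δ ≤ μ.real (⋃ c ∈ F, Metric.closedBall c r)) (k : ℕ) :
    ∃ F' : Finset UnitAddCircle, F'.card ≤ F.card ^ (k + 1) ∧
      1 - (k + 1) * δ ≤ (cpow μ k).real (⋃ c ∈ F', Metric.closedBall c ((k + 1) * r)) := by
  classical
  induction k with
  | zero => exact ⟨F, by simp, by simpa [cpow] using h⟩
  | succ k ih =>
    obtain ⟨F', hF', h'⟩ := ih
    refine ⟨(F ×ˢ F').image (fun q => q.1 + q.2), ?_, ?_⟩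
    · refine Finset.card_image_le.trans ?_
      rw [Finset.card_product, pow_succ' _ (k + 1)]
      exact Nat.mul_le_mul_left _ hF'
    · set A := ⋃ c ∈ F, Metric.closedBall c r
      set B := ⋃ c ∈ F', Metric.closedBall c (((k : ℝ) + 1) * r)
      set C := ⋃ c ∈ (F ×ˢ F').image (fun q => q.1 + q.2),
        Metric.closedBall c ((((k + 1 : ℕ) : ℝ) + 1) * r) with hC
      have hCm : MeasurableSet C := Finset.measurableSet_biUnion _ fun c _ => Metric.isClosed_closedBall.measurableSet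
      have h1 : μ A * cpow μ k B ≤ cpow μ (k + 1) C := by
        rw [cpow, Measure.conv, Measure.map_apply (by fun_prop) hCm, ← Measure.prod_prod]
        apply measure_mono
        rintro ⟨x, y⟩ ⟨hx, hy⟩
        simp only [A, B, mem_iUnion] at hx hy
        obtain ⟨c, hc, hxc⟩ := hx
        obtain ⟨d, hd, hyd⟩ := hy
        simp only [mem_preimage, hC, mem_iUnion]
        refine ⟨c + d, Finset.mem_image.2 ⟨(c, d), Finset.mem_product.2 ⟨hc, hd⟩, rfl⟩, ?_⟩
        rw [Metric.mem_closedBall] at hxc hyd ⊢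
        calc dist (x + y) (c + d) ≤ dist x c + dist y d := dist_add_add_le _ _ _ _
          _ ≤ (((k + 1 : ℕ) : ℝ) + 1) * r := by push_cast; linarith
      have h2 : μ.real A * (cpow μ k).real B ≤ (cpow μ (k + 1)).real C := by
        rw [Measure.real, Measure.real, Measure.real, ← ENNReal.toReal_mul]
        exact ENNReal.toReal_mono (measure_ne_top _ _) h1
      have h3 : μ.real A ≤ 1 := measureReal_le_one
      have h4 : (cpow μ k).real B ≤ 1 := measureReal_le_one
      have h5 : 0 ≤ μ.real A := measureReal_nonneg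
      have h6 : 0 ≤ (cpow μ k).real B := measureReal_nonneg
      have h7 : 0 ≤ (1 - μ.real A) * (1 - (cpow μ k).real B) :=
        mul_nonneg (by linarith) (by linarith)
      push_cast
      nlinarith

theorem volume_biUnion_ball (F : Finset UnitAddCircle) {r : ℝ} (hr : 0 ≤ r) :
    (volume : Measure UnitAddCircle).real (⋃ c ∈ F, Metric.closedBall c r) ≤ F.card * (2 * r) := by
  refine (measureReal_biUnion_finset_le _ _).trans ?_
  rw [← nsmul_eq_mul]
  refine Finset.sum_le_card_nsmul _ _ _ fun c _ => ?_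
  rw [Measure.real, AddCircle.volume_closedBall, ENNReal.toReal_ofReal (by positivity)]
  exact min_le_right _ _

theorem entropy_of_dominate {p : ℕ} (hp : 2 ≤ p) {μ : Measure UnitAddCircle} [IsProbabilityMeasure μ]
    {k : ℕ} (h : ∀ E : Set UnitAddCircle, MeasurableSet E →
      (1 / 2 : ℝ) * (volume : Measure UnitAddCircle).real E ≤ (cpow μ k).real E) :
    ∃ c : ℝ, 0 < c ∧ ∀ᶠ N : ℕ in atTop, c * N ≤ ent p μ N := by
  classical
  set K : ℝ := (k : ℝ) + 1 with hK
  have hK0 : 0 < K := by positivity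
  set a : ℝ := Real.log 2 / (2 * K) with ha
  have ha0 : 0 < a := by have := Real.log_pos one_lt_two; positivity
  set δ : ℝ := 1 / (8 * K) with hδ
  have hδ0 : 0 < δ := by positivity
  refine ⟨a * δ, by positivity, ?_⟩
  have h1 : Tendsto (fun N : ℕ => 2 * K * (Real.sqrt 2)⁻¹ ^ N) atTop (𝓝 (2 * K * 0)) := by
    refine (tendsto_pow_atTop_nhds_zero_of_lt_one (by positivity) ?_).const_mul _
    rw [inv_lt_one₀ (by positivity)]
    exact Real.lt_sqrt_of_sq_lt (by norm_num)
  rw [mul_zero] at h1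
  filter_upwards [h1.eventually_lt_const (show (0 : ℝ) < 1 / 2 by norm_num), eventually_ge_atTop 1]
    with N hN1 hN
  by_contra hcon
  rw [not_le] at hcon
  obtain ⟨J, hJ, hJlt, hJm⟩ := cover hp μ hN ha0
  have haN : 0 < a * N := by positivity
  have h2 : ent p μ N / (a * N) ≤ δ := by
    rw [div_le_iff₀ haN]; linarith
  set F : Finset UnitAddCircle := J.image (fun j : ℕ => ((((j : ℝ) / p ^ N : ℝ)) : UnitAddCircle)) with hF
  have h3 : 1 - δ ≤ μ.real (⋃ c ∈ F, Metric.closedBall c (1 / (p : ℝ) ^ N)) := by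
    refine le_trans (by linarith) (hJm.trans (measureReal_mono ?_ (measure_ne_top _ _)))
    intro u hu
    simp only [mem_iUnion] at hu ⊢
    obtain ⟨j, hj, huj⟩ := hu
    exact ⟨_, Finset.mem_image.2 ⟨j, hj, rfl⟩, arc_subset_ball huj⟩
  obtain ⟨F', hF', h4⟩ := cover_cpow μ F h3 k
  set A := ⋃ c ∈ F', Metric.closedBall c (((k : ℝ) + 1) * (1 / (p : ℝ) ^ N)) with hA
  have hAm : MeasurableSet A :=
    Finset.measurableSet_biUnion _ fun c _ => Metric.isClosed_closedBall.measurableSet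
  have hp0 : (0 : ℝ) < (p : ℝ) ^ N := by positivity
  have h5 : (volume : Measure UnitAddCircle).real A ≤ 1 / 2 := by
    have h6 := volume_biUnion_ball F' (r := ((k : ℝ) + 1) * (1 / (p : ℝ) ^ N)) (by positivity)
    refine h6.trans ?_
    have h7 : (F'.card : ℝ) ≤ Real.exp (a * N) ^ (k + 1) := by
      calc (F'.card : ℝ) ≤ (F.card : ℝ) ^ (k + 1) := by exact_mod_cast hF'
        _ ≤ (J.card : ℝ) ^ (k + 1) := by
            have : F.card ≤ J.card := Finset.card_image_le
            gcongr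
        _ ≤ Real.exp (a * N) ^ (k + 1) := by gcongr
    have h8 : Real.exp (a * N) ^ (k + 1) = Real.sqrt 2 ^ N := by
      have e2 : Real.sqrt 2 = Real.exp (Real.log 2 / 2) := by
        rw [Real.exp_half, Real.exp_log two_pos]
      rw [e2, ← Real.exp_nat_mul, ← Real.exp_nat_mul]
      congr 1
      rw [ha, hK]
      push_cast
      field_simp
    have h9 : (2 : ℝ) ^ N ≤ (p : ℝ) ^ N := by
      have : (2 : ℝ) ≤ p := by exact_mod_cast hp
      gcongr
    calc (F'.card : ℝ) * (2 * (((k : ℝ) + 1) * (1 / (p : ℝ) ^ N)))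
        ≤ Real.sqrt 2 ^ N * (2 * (K * (1 / (2 : ℝ) ^ N))) := by
          rw [← h8]; gcongr
      _ = 2 * K * (Real.sqrt 2)⁻¹ ^ N := by
          have e2 : (2 : ℝ) ^ N = Real.sqrt 2 ^ N * Real.sqrt 2 ^ N := by
            rw [← mul_pow, Real.mul_self_sqrt (by norm_num)]
          have e3 : Real.sqrt 2 ^ N ≠ 0 := by positivity
          rw [e2, inv_pow]
          field_simp
      _ ≤ 1 / 2 := hN1.le
  have h6 := h Aᶜ hAm.compl
  rw [measureReal_compl hAm, measureReal_compl hAm] at h6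
  have h7 : (volume : Measure UnitAddCircle).real univ = 1 := by simp
  have h8 : (cpow μ k).real univ = 1 := by simp
  rw [h7, h8] at h6
  have h9 : ((k : ℝ) + 1) * δ = 1 / 8 := by rw [hδ, hK]; field_simp
  rw [h9] at h4
  linarith

end Pool.Agent.H185.XQ
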