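import Pool.Agent.H185.XQ.Basic

/-!
# Ergodic decomposition for semigroups of multiplications of the circle
-/

set_option autoImplicit false
set_option linter.unusedSectionVars false

open MeasureTheory Filter Topology Set ProbabilityTheory
open scoped InnerProductSpace ComplexConjugate ENNReal

namespace Pool.Agent.H185.XQ

section MinNorm

variable {H : Type*} [NormedAddCommGroup H] [InnerProductSpace ℂ H] [CompleteSpace H]

/-- The element of minimal norm of the closed convex hull of an orbit is invariant. -/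
theorem exists_min {G : Type*} [Monoid G] (V : G → H →ₗᵢ[ℂ] H)
    (hV : ∀ a b x, V (a * b) x = V a (V b x)) (f : H) :
    ∃ h ∈ closure (convexHull ℝ (range fun g => V g f)), (∀ g, V g h = h) ∧
      ∀ k ∈ closure (convexHull ℝ (range fun g => V g f)), ‖h‖ ≤ ‖k‖ := by
  let _ : InnerProductSpace ℝ H := InnerProductSpace.complexToReal
  set K := closure (convexHull ℝ (range fun g => V g f)) with hK
  have hne : K.Nonempty := ⟨V 1 f, subset_closure (subset_convexHull ℝ _ ⟨1, rfl⟩)⟩
  have hconv : Convex ℝ K := (convex_convexHull ℝ _).closure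
  have hcl : IsClosed K := isClosed_closure
  obtain ⟨h, hh, hmin⟩ := exists_norm_eq_iInf_of_complete_convex (F := H) (K := K) hne
    hcl.isComplete hconv 0
  simp only [zero_sub, norm_neg] at hmin
  have hmin' : ∀ k ∈ K, ‖h‖ ≤ ‖k‖ := by
    intro k hk
    rw [hmin]
    exact ciInf_le ⟨0, by rintro _ ⟨x, rfl⟩; exact norm_nonneg _⟩ (⟨k, hk⟩ : K)
  refine ⟨h, hh, fun g => ?_, hmin'⟩
  have hVK : ∀ k ∈ K, V g k ∈ K := by
    intro k hk
    have h1 : MapsTo (V g) (convexHull ℝ (range fun g => V g f)) (convexHull ℝ (range fun g => V g f)) := by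
      intro x hx
      have h2 := ((V g).toLinearMap.restrictScalars ℝ).image_convexHull (range fun g => V g f)
      have h3 : V g x ∈ ((V g).toLinearMap.restrictScalars ℝ) '' convexHull ℝ (range fun g => V g f) :=
        ⟨x, hx, rfl⟩
      rw [h2] at h3
      refine convexHull_mono ?_ h3
      rintro _ ⟨_, ⟨a, rfl⟩, rfl⟩
      exact ⟨g * a, hV g a f⟩
    exact h1.closure (V g).continuous hk
  have h1 := hVK h hh
  have h2 : (1 / 2 : ℝ) • h + (1 / 2 : ℝ) • V g h ∈ K := hconv hh h1 (by norm_num) (by norm_num) (by norm_num)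
  have h3 := hmin' _ h2
  rw [← smul_add, norm_smul] at h3
  have h4 := parallelogram_law_with_norm ℂ h (V g h)
  rw [(V g).norm_map] at h4
  have h5 : ‖h - V g h‖ * ‖h - V g h‖ ≤ 0 := by
    have h6 : 2 * ‖h‖ ≤ ‖h + V g h‖ := by
      rw [Real.norm_of_nonneg (by norm_num)] at h3
      linarith
    nlinarith [norm_nonneg h]
  have h6 : ‖h - V g h‖ = 0 := by nlinarith [norm_nonneg (h - V g h)]
  exact (sub_eq_zero.1 (norm_eq_zero.1 h6)).symm

end MinNorm

variable (G : Submonoid ℕ) (μ : Measure UnitAddCircle)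

/-- the sigma-algebra of the almost invariant sets -/
@[reducible] def inva : MeasurableSpace UnitAddCircle where
  MeasurableSet' E := MeasurableSet E ∧ ∀ s ∈ G, (fun x : UnitAddCircle => s • x) ⁻¹' E =ᵐ[μ] E
  measurableSet_empty := ⟨.empty, by simp⟩
  measurableSet_compl E h := ⟨h.1.compl, fun s hs => (h.2 s hs).compl⟩
  measurableSet_iUnion f h := ⟨.iUnion fun i => (h i).1, fun s hs => by
    rw [preimage_iUnion]; exact Filter.EventuallyEq.countable_iUnion fun i => (h i).2 s hs⟩

theorem inva_le : inva G μ ≤ (inferInstance : MeasurableSpace UnitAddCircle) := fun _ h => h.1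

/-- the convex combinations of the images of a character -/
def Cv (n : ℤ) : Set C(UnitAddCircle, ℂ) := convexHull ℝ (range fun g : G => fourier (n * (g : ℕ)))

/-- ergodicity with respect to the strictly invariant sets -/
def Erg (ρ : Measure UnitAddCircle) : Prop :=
  ∀ E : Set UnitAddCircle, MeasurableSet E →
    (∀ g ∈ G, (fun x : UnitAddCircle => g • x) ⁻¹' E = E) → ρ E = 0 ∨ ρ E = 1

variable {G μ}

theorem setIntegral_Cv {ρ : Measure UnitAddCircle} [IsFiniteMeasure ρ] (hρ : ∀ g ∈ G, Inv g ρ)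
    {E : Set UnitAddCircle} (hE : MeasurableSet E)
    (hE' : ∀ g ∈ G, (fun x : UnitAddCircle => g • x) ⁻¹' E =ᵐ[ρ] E) {n : ℤ}
    {P : C(UnitAddCircle, ℂ)} (hP : P ∈ Cv G n) : ∫ x in E, P x ∂ρ = ∫ x in E, fourier n x ∂ρ := by
  have hconv : Convex ℝ {P : C(UnitAddCircle, ℂ) | ∫ x in E, P x ∂ρ = ∫ x in E, fourier n x ∂ρ} := by
    intro P hP Q hQ a b ha hb hab
    simp only [mem_ofPred_eq] at hP hQ ⊢
    simp only [ContinuousMap.add_apply, ContinuousMap.smul_apply]
    rw [integral_add (f := fun x => a • P x) (g := fun x => b • Q x) ((integrable_cont _ P).smul a)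
      ((integrable_cont _ Q).smul b), integral_smul, integral_smul, hP, hQ, ← add_smul, hab, one_smul]
  refine convexHull_min ?_ hconv hP
  rintro _ ⟨g, rfl⟩
  simp only [mem_ofPred_eq]
  have h1 : ∫ x in E, (fourier n x : ℂ) ∂ρ = ∫ x in E, (fourier n x : ℂ) ∂(ρ.map (fun x => (g : ℕ) • x)) := by
    rw [(hρ g g.2).map_eq]
  rw [h1, setIntegral_map hE (fourier n).continuous.aestronglyMeasurable
    (measurable_smul' _).aemeasurable]
  simp_rw [fourier_nsmul]
  exact setIntegral_congr_set (hE' g g.2).symm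

theorem integral_Cv {ρ : Measure UnitAddCircle} [IsFiniteMeasure ρ] (hρ : ∀ g ∈ G, Inv g ρ) {n : ℤ}
    {P : C(UnitAddCircle, ℂ)} (hP : P ∈ Cv G n) : ∫ x, P x ∂ρ = cf ρ n := by
  have := setIntegral_Cv hρ MeasurableSet.univ (fun g _ => by simp) hP
  rwa [Measure.restrict_univ] at this

/-- the criterion of ergodicity -/
theorem erg_of_Cv {ρ : Measure UnitAddCircle} [IsProbabilityMeasure ρ] (hρ : ∀ g ∈ G, Inv g ρ)
    (h : ∀ n : ℤ, ∀ ε : ℝ, 0 < ε → ∃ P ∈ Cv G n, ∫ x, ‖P x‖ ^ 2 ∂ρ - ‖cf ρ n‖ ^ 2 < ε) : Erg G ρ := by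
  intro E hE hEi
  have hEi' : ∀ g ∈ G, (fun x : UnitAddCircle => g • x) ⁻¹' E =ᵐ[ρ] E := fun g hg => Filter.EventuallyEq.of_eq (hEi g hg)
  have key : ∀ n, ∫ x in E, (fourier n x : ℂ) ∂ρ = (ρ E).toReal • cf ρ n := by
    intro n
    have h1 : ∀ δ : ℝ, 0 < δ → ‖∫ x in E, (fourier n x : ℂ) ∂ρ - (ρ E).toReal • cf ρ n‖ ≤ δ := by
      intro δ hδ
      obtain ⟨P, hP, hlt⟩ := h n (δ ^ 2) (by positivity)
      have e1 : ∫ x in E, (fourier n x : ℂ) ∂ρ - (ρ E).toReal • cf ρ n =
          ∫ x in E, (P x - cf ρ n) ∂ρ := by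
        rw [integral_sub (integrable_cont _ P) (integrable_const _), setIntegral_Cv hρ hE hEi' hP,
          integral_const]
        simp [Measure.real]
      rw [e1]
      have hint : Integrable (fun x => ‖P x - cf ρ n‖) ρ := by
        have := ((integrable_cont ρ P).sub (integrable_const (cf ρ n))).norm
        exact this
      have hint2 : Integrable (fun x => ‖P x - cf ρ n‖ ^ 2) ρ := by
        have : Continuous (fun x => ‖P x - cf ρ n‖ ^ 2) := by fun_prop
        exact this.integrable_of_hasCompactSupport (HasCompactSupport.of_compactSpace _)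
      have e2 : ‖∫ x in E, (P x - cf ρ n) ∂ρ‖ ≤ ∫ x, ‖P x - cf ρ n‖ ∂ρ :=
        (norm_integral_le_integral_norm _).trans
          (setIntegral_le_integral hint (Filter.Eventually.of_forall fun x => norm_nonneg _))
      have e3 : (∫ x, ‖P x - cf ρ n‖ ∂ρ) ^ 2 ≤ ∫ x, ‖P x - cf ρ n‖ ^ 2 ∂ρ := by
        set t := ∫ x, ‖P x - cf ρ n‖ ∂ρ with ht
        have h5 : 0 ≤ ∫ x, (‖P x - cf ρ n‖ - t) ^ 2 ∂ρ := integral_nonneg fun x => sq_nonneg _
        have h6 : ∫ x, (‖P x - cf ρ n‖ - t) ^ 2 ∂ρ =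
            ∫ x, ‖P x - cf ρ n‖ ^ 2 ∂ρ - 2 * t * t + t ^ 2 := by
          have : ∀ x, (‖P x - cf ρ n‖ - t) ^ 2 = ‖P x - cf ρ n‖ ^ 2 - 2 * t * ‖P x - cf ρ n‖ + t ^ 2 := by
            intro x; ring
          simp_rw [this]
          rw [integral_add (f := fun x => ‖P x - cf ρ n‖ ^ 2 - 2 * t * ‖P x - cf ρ n‖)
              (g := fun _ => t ^ 2) (hint2.sub (hint.const_mul _)) (integrable_const _),
            integral_sub (f := fun x => ‖P x - cf ρ n‖ ^ 2) (g := fun x => 2 * t * ‖P x - cf ρ n‖)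
              hint2 (hint.const_mul _), integral_const_mul, ← ht]
          simp
        rw [h6] at h5
        nlinarith
      have e4 : ∫ x, ‖P x - cf ρ n‖ ^ 2 ∂ρ = ∫ x, ‖P x‖ ^ 2 ∂ρ - ‖cf ρ n‖ ^ 2 := by
        have h7 : ∀ x, ‖P x - cf ρ n‖ ^ 2 = ‖P x‖ ^ 2 - 2 * (conj (cf ρ n) * P x).re + ‖cf ρ n‖ ^ 2 := by
          intro x
          have := @norm_sub_sq ℂ ℂ _ _ _ (P x) (cf ρ n)
          rw [this]
          congr 2
          rw [← inner_conj_symm, RCLike.inner_apply]
          simp [mul_comm]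
        simp_rw [h7]
        have i1 : Integrable (fun x => ‖P x‖ ^ 2) ρ := by
          have : Continuous (fun x => ‖P x‖ ^ 2) := by fun_prop
          exact this.integrable_of_hasCompactSupport (HasCompactSupport.of_compactSpace _)
        have i2 : Integrable (fun x => (conj (cf ρ n) * P x).re) ρ :=
          ((integrable_cont ρ P).const_mul _).re
        rw [integral_add (f := fun x => ‖P x‖ ^ 2 - 2 * (conj (cf ρ n) * P x).re)
            (g := fun _ => ‖cf ρ n‖ ^ 2) (i1.sub (i2.const_mul _)) (integrable_const _),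
          integral_sub (f := fun x => ‖P x‖ ^ 2) (g := fun x => 2 * (conj (cf ρ n) * P x).re)
            i1 (i2.const_mul _), integral_const_mul]
        have h8 : ∫ x, (conj (cf ρ n) * P x).re ∂ρ = ‖cf ρ n‖ ^ 2 := by
          have h9 := integral_re ((integrable_cont ρ P).const_mul (conj (cf ρ n)))
          simp only [RCLike.re_to_complex] at h9
          rw [h9, integral_const_mul, integral_Cv hρ hP, mul_comm, Complex.mul_conj]
          rw [Complex.normSq_eq_norm_sq]
          norm_cast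
        rw [h8]
        simp
        ring
      have e5 : (∫ x, ‖P x - cf ρ n‖ ∂ρ) ^ 2 < δ ^ 2 := by
        rw [e4] at e3
        exact e3.trans_lt hlt
      have e6 := lt_of_pow_lt_pow_left₀ 2 hδ.le e5
      linarith
    have h2 : ‖∫ x in E, (fourier n x : ℂ) ∂ρ - (ρ E).toReal • cf ρ n‖ ≤ 0 :=
      le_of_forall_pos_le_add fun δ hδ => by simpa using h1 δ hδ
    exact sub_eq_zero.1 (norm_le_zero_iff.1 h2)
  have h3 : ρ.restrict E = (ρ E) • ρ := by
    have : IsFiniteMeasure ((ρ E) • ρ) := Measure.smul_finite ρ (measure_ne_top ρ E)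
    refine ext_cf fun n => ?_
    rw [cf, key n]
    show _ = ∫ x, (fourier n x : ℂ) ∂((ρ E) • ρ)
    rw [integral_smul_measure]
    rfl
  have h4 : ρ E = ρ E * ρ E := by
    have := congrArg (fun m : Measure UnitAddCircle => m E) h3
    simp only [Measure.smul_apply, smul_eq_mul] at this
    rwa [Measure.restrict_apply_self] at this
  by_cases h0 : ρ E = 0
  · left; exact h0
  · right
    have h5 : ρ E ≠ ∞ := measure_ne_top ρ E
    have h6 : ρ E * 1 = ρ E * ρ E := by rw [mul_one]; exact h4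
    exact ((ENNReal.mul_right_inj h0 h5).1 h6).symm

end Pool.Agent.H185.XQ
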