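import Mathlib

/-!
# Finitely valued Fourier transforms of atomless measures

An atomless finite measure on the circle whose Fourier coefficients take only finitely many values
has only finitely many nonzero Fourier coefficients.
-/

set_option autoImplicit false
set_option linter.unusedSectionVars false

open MeasureTheory Filter Topology Set
open scoped InnerProductSpace ComplexConjugate ENNReal

namespace Pool.Agent.H185.XQ

section Abstract

variable {H : Type*} [NormedAddCommGroup H] [InnerProductSpace ℂ H] [CompleteSpace H]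

/-- weak limits along ultrafilters -/
theorem exists_weak_lim {ι : Type*} (W : Ultrafilter ι) (x : ι → H) (C : ℝ) (hx : ∀ i, ‖x i‖ ≤ C) :
    ∃ g : H, ‖g‖ ≤ C ∧ ∀ h : H, Tendsto (fun i => ⟪x i, h⟫_ℂ) W (𝓝 ⟪g, h⟫_ℂ) := by
  have hcomp := WeakDual.isCompact_closedBall (𝕜 := ℂ) (E := H) 0 C
  let l : ι → WeakDual ℂ H := fun i => StrongDual.toWeakDual (InnerProductSpace.toDual ℂ H (x i))
  have hmem : ∀ i, l i ∈ (WeakDual.toStrongDual ⁻¹' Metric.closedBall (0 : StrongDual ℂ H) C) := by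
    intro i
    simp only [mem_preimage, mem_closedBall_zero_iff]
    change ‖InnerProductSpace.toDual ℂ H (x i)‖ ≤ C
    rw [LinearIsometryEquiv.norm_map]
    exact hx i
  obtain ⟨l', hl', hle⟩ := hcomp.ultrafilter_le_nhds' (W.map l)
    (by rw [Ultrafilter.mem_map]; exact Filter.univ_mem' hmem)
  refine ⟨(InnerProductSpace.toDual ℂ H).symm (WeakDual.toStrongDual l'), ?_, fun h => ?_⟩
  · rw [LinearIsometryEquiv.norm_map]
    simpa using hl'
  · have h1 : Tendsto l W (𝓝 l') := hle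
    have h2 := ((WeakDual.eval_continuous (𝕜 := ℂ) (E := H) h).tendsto l').comp h1
    rw [InnerProductSpace.toDual_symm_apply]
    exact h2

/-- an action of the integers by isometries -/
structure Act (U : ℤ → H →ₗᵢ[ℂ] H) : Prop where
  zero : ∀ x, U 0 x = x
  add : ∀ m n x, U (m + n) x = U m (U n x)

variable {U : ℤ → H →ₗᵢ[ℂ] H}

theorem Act.adj (hU : Act U) (m : ℤ) (x y : H) : ⟪U m x, y⟫_ℂ = ⟪x, U (-m) y⟫_ℂ := by
  have h : y = U m (U (-m) y) := by rw [← hU.add, add_neg_cancel, hU.zero]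
  conv_lhs => rw [h]
  exact LinearIsometry.inner_map_map _ _ _

/-- limit points of the orbit at infinity -/
def Lim (U : ℤ → H →ₗᵢ[ℂ] H) (v : H) : Set H :=
  {g | ∃ W : Ultrafilter ℤ, (W : Filter ℤ) ≤ cofinite ∧
    ∀ h : H, Tendsto (fun n => ⟪U n v, h⟫_ℂ) W (𝓝 ⟪g, h⟫_ℂ)}

theorem Lim.shift (hU : Act U) {v g : H} (hg : g ∈ Lim U v) (m : ℤ) : U m g ∈ Lim U v := by
  obtain ⟨W, hW, h⟩ := hg
  refine ⟨W.map (fun n => m + n), ?_, fun y => ?_⟩
  · rw [Ultrafilter.coe_map]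
    exact (Filter.map_mono hW).trans ((add_right_injective m).tendsto_cofinite)
  · rw [Ultrafilter.coe_map, Filter.tendsto_map'_iff]
    have h1 := h (U (-m) y)
    rw [← hU.adj] at h1
    refine h1.congr fun n => ?_
    simp only [Function.comp_apply]
    rw [hU.add, hU.adj m]

theorem Lim.bind {v : H} {ι : Type*} (V : Ultrafilter ι) (g : ι → H) (hg : ∀ i, g i ∈ Lim U v) {g' : H}
    (h' : ∀ h : H, Tendsto (fun i => ⟪g i, h⟫_ℂ) V (𝓝 ⟪g', h⟫_ℂ)) : g' ∈ Lim U v := by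
  choose W hW hl using hg
  refine ⟨V.bind W, ?_, fun y => ?_⟩
  · intro s hs
    show {i | s ∈ W i} ∈ V
    exact Filter.univ_mem' fun i => hW i hs
  · rw [Metric.tendsto_nhds]
    intro ε hε
    have h1 := (Metric.tendsto_nhds.1 (h' y)) (ε / 2) (by positivity)
    show {i | {n | dist ⟪U n v, y⟫_ℂ ⟪g', y⟫_ℂ < ε} ∈ W i} ∈ V
    filter_upwards [h1] with i hi
    have h2 := (Metric.tendsto_nhds.1 (hl i y)) (ε / 2) (by positivity)
    show {n | dist ⟪U n v, y⟫_ℂ ⟪g', y⟫_ℂ < ε} ∈ (W i : Filter ℤ)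
    filter_upwards [h2] with n hn
    calc dist ⟪U n v, y⟫_ℂ ⟪g', y⟫_ℂ ≤ dist ⟪U n v, y⟫_ℂ ⟪g i, y⟫_ℂ + dist ⟪g i, y⟫_ℂ ⟪g', y⟫_ℂ :=
          dist_triangle _ _ _
      _ < ε := by linarith

/-- a free ultrafilter on an infinite set -/
theorem exists_free {s : Set ℤ} (hs : s.Infinite) :
    ∃ W : Ultrafilter ℤ, (W : Filter ℤ) ≤ cofinite ∧ s ∈ W := by
  have h1 : NeBot (cofinite ⊓ 𝓟 s) := by
    rw [← frequently_mem_iff_neBot, frequently_cofinite_iff_infinite]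
    exact hs
  refine ⟨Ultrafilter.of (cofinite ⊓ 𝓟 s), (Ultrafilter.of_le _).trans inf_le_left, ?_⟩
  exact ((Ultrafilter.of_le (cofinite ⊓ 𝓟 s)).trans inf_le_right) (mem_principal_self s)

/-- the limits of a function with values in a finite set -/
theorem lim_mem {F : Set ℂ} (hF : F.Finite) {W : Ultrafilter ℤ} {f : ℤ → ℂ} {z : ℂ}
    (h : Tendsto f W (𝓝 z)) (hf : ∀ᶠ n in (W : Filter ℤ), f n ∈ F) : z ∈ F :=
  hF.isClosed.mem_of_tendsto h hf

theorem Lim.mem {v g : H} {F : Set ℂ} (hF : F.Finite)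
    (hc : ∀ n, ⟪U n v, v⟫_ℂ ∈ F) (hg : g ∈ Lim U v) : ⟪g, v⟫_ℂ ∈ F := by
  obtain ⟨W, hW, h⟩ := hg
  exact lim_mem hF (h v) (Filter.univ_mem' hc)

/-- two points of a finite set at a small distance are equal -/
theorem exists_gap {F : Set ℂ} (hF : F.Finite) :
    ∃ δ : ℝ, 0 < δ ∧ ∀ x ∈ F, ∀ y ∈ F, ‖x - y‖ < δ → x = y := by
  have h2 : (F.offDiag).Finite := hF.offDiag
  have h3 : ((fun p : ℂ × ℂ => ‖p.1 - p.2‖) '' F.offDiag).Finite := h2.image _
  have h4 : ∀ᶠ δ : ℝ in 𝓝[>] 0, ∀ d ∈ ((fun p : ℂ × ℂ => ‖p.1 - p.2‖) '' F.offDiag), δ < d := by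
    rw [h3.eventually_all]
    rintro d ⟨p, hp, rfl⟩
    have : 0 < ‖p.1 - p.2‖ := norm_pos_iff.2 (sub_ne_zero.2 hp.2.2)
    exact nhdsWithin_le_nhds (Iio_mem_nhds this)
  obtain ⟨δ, hδ, h0⟩ := (h4.and self_mem_nhdsWithin).exists
  refine ⟨δ, h0, fun x hx y hy hxy => ?_⟩
  by_contra hne
  have := hδ _ ⟨(x, y), ⟨hx, hy, hne⟩, rfl⟩
  simp only at this
  linarith

theorem finite_support (hU : Act U) (v : H) (hcyc : ∀ x, (∀ n, ⟪x, U n v⟫_ℂ = 0) → x = 0)
    (hfree : ∀ m n : ℤ, m ≠ n → ∀ x, U m x = U n x → x = 0) (F : Set ℂ) (hF : F.Finite)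
    (hc : ∀ n, ⟪U n v, v⟫_ℂ ∈ F) : {n : ℤ | ⟪U n v, v⟫_ℂ ≠ 0}.Finite := by
  by_contra hinf
  have hinf' : {n : ℤ | ⟪U n v, v⟫_ℂ ≠ 0}.Infinite := hinf
  obtain ⟨δ, hδ, hgap⟩ := exists_gap (hF.insert 0)
  -- the nonzero limits
  have key : ∀ (x : ℤ → H) (C : ℝ), (∀ n, ‖x n‖ ≤ C) → (∀ n, ⟪x n, v⟫_ℂ ∈ F) →
      {n : ℤ | ⟪x n, v⟫_ℂ ≠ 0}.Infinite →
      ∃ (W : Ultrafilter ℤ) (g : H), (W : Filter ℤ) ≤ cofinite ∧ ‖g‖ ≤ C ∧
        (∀ h : H, Tendsto (fun n => ⟪x n, h⟫_ℂ) W (𝓝 ⟪g, h⟫_ℂ)) ∧ ⟪g, v⟫_ℂ ≠ 0 := by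
    intro x C hxC hxF hx
    obtain ⟨W, hW, hs⟩ := exists_free hx
    obtain ⟨g, hg, hl⟩ := exists_weak_lim W x C hxC
    refine ⟨W, g, hW, hg, hl, ?_⟩
    have h1 : ⟪g, v⟫_ℂ ∈ F \ {0} := by
      apply lim_mem (hF.subset sdiff_subset) (hl v)
      filter_upwards [hs] with n hn
      exact ⟨hxF n, hn⟩
    exact h1.2
  have hnorm : ∀ n x, ‖U n x‖ = ‖x‖ := fun n x => (U n).norm_map x
  have hbd : BddBelow ((fun g : H => ‖g‖ ^ 2) '' {g | g ∈ Lim U v ∧ ⟪g, v⟫_ℂ ≠ 0}) :=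
    ⟨0, by rintro _ ⟨g, -, rfl⟩; positivity⟩
  have hne : ((fun g : H => ‖g‖ ^ 2) '' {g | g ∈ Lim U v ∧ ⟪g, v⟫_ℂ ≠ 0}).Nonempty := by
    obtain ⟨W, g, hW, hg, hl, h0⟩ := key (fun n => U n v) ‖v‖ (fun n => (hnorm n v).le) hc hinf'
    exact ⟨_, g, ⟨⟨W, hW, hl⟩, h0⟩, rfl⟩
  have hv : 0 < ‖v‖ := by
    rw [norm_pos_iff]
    rintro rfl
    obtain ⟨n, hn⟩ := hinf'.nonempty
    simp at hn
  obtain ⟨η, hη, hη2⟩ : ∃ η : ℝ, 0 < η ∧ 4 * η * ‖v‖ ^ 2 ≤ δ ^ 2 :=
    ⟨δ ^ 2 / (4 * ‖v‖ ^ 2), by positivity, by field_simp; rfl⟩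
  obtain ⟨_, ⟨g, ⟨hg, hg0⟩, rfl⟩, hgI⟩ := exists_lt_of_csInf_lt hne (lt_add_of_pos_right
    (sInf ((fun g : H => ‖g‖ ^ 2) '' {g | g ∈ Lim U v ∧ ⟪g, v⟫_ℂ ≠ 0})) hη)
  have hUg : ∀ m, ⟪U m g, v⟫_ℂ ∈ F := fun m => Lim.mem hF hc (Lim.shift hU hg m)
  by_cases hE : {m : ℤ | ⟪U m g, v⟫_ℂ ≠ 0}.Infinite
  · obtain ⟨W, h, hW, hh, hl, h0⟩ := key (fun n => U n g) ‖g‖ (fun n => (hnorm n g).le) hUg hE
    have hK : h ∈ Lim U v := Lim.bind W (fun n => U n g) (fun n => Lim.shift hU hg n) hl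
    have hI : sInf ((fun g : H => ‖g‖ ^ 2) '' {g | g ∈ Lim U v ∧ ⟪g, v⟫_ℂ ≠ 0}) ≤ ‖h‖ ^ 2 :=
      csInf_le hbd ⟨h, ⟨hK, h0⟩, rfl⟩
    have h1 : ∀ᶠ m in (W : Filter ℤ), ‖U m g - h‖ ^ 2 < η := by
      have e : ∀ m, ‖U m g - h‖ ^ 2 = ‖g‖ ^ 2 - 2 * (⟪U m g, h⟫_ℂ).re + ‖h‖ ^ 2 := by
        intro m
        have := @norm_sub_sq ℂ H _ _ _ (U m g) h
        rw [this, hnorm]
        rfl
      have h2 : Tendsto (fun m => ‖U m g - h‖ ^ 2) W (𝓝 (‖g‖ ^ 2 - ‖h‖ ^ 2)) := by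
        have h3 := (Complex.continuous_re.tendsto _).comp (hl h)
        have h4 : (⟪h, h⟫_ℂ).re = ‖h‖ ^ 2 := by
          have := @inner_self_eq_norm_sq ℂ H _ _ _ h
          simpa using this
        have h5 : Tendsto (fun m => ‖g‖ ^ 2 - 2 * (⟪U m g, h⟫_ℂ).re + ‖h‖ ^ 2) W
            (𝓝 (‖g‖ ^ 2 - 2 * (⟪h, h⟫_ℂ).re + ‖h‖ ^ 2)) :=
          ((h3.const_mul 2).const_sub _).add_const _
        rw [h4] at h5
        refine (h5.congr fun m => (e m).symm).trans ?_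
        rw [show ‖g‖ ^ 2 - 2 * ‖h‖ ^ 2 + ‖h‖ ^ 2 = ‖g‖ ^ 2 - ‖h‖ ^ 2 by ring]
      exact h2.eventually_lt_const (by simp only at hgI; linarith)
    obtain ⟨m, hm⟩ := h1.exists
    have h2 : ∀ᶠ m' in (W : Filter ℤ), m' ≠ m := by
      have : ∀ᶠ m' in (cofinite : Filter ℤ), m' ≠ m := by
        rw [Filter.eventually_cofinite]; simp
      exact hW this
    obtain ⟨m', hm', hne'⟩ := (h1.and h2).exists
    have h3 : ‖U m g - U m' g‖ * ‖v‖ < δ := by
      have a1 : ‖U m g - U m' g‖ ≤ ‖U m g - h‖ + ‖U m' g - h‖ := by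
        rw [norm_sub_rev (U m' g) h]
        exact norm_sub_le_norm_sub_add_norm_sub _ _ _
      have a2 : (‖U m g - h‖ + ‖U m' g - h‖) ^ 2 < 4 * η := by
        nlinarith [sq_nonneg (‖U m g - h‖ - ‖U m' g - h‖)]
      have a3 : (‖U m g - U m' g‖ * ‖v‖) ^ 2 < δ ^ 2 := by
        have b1 : ‖U m g - U m' g‖ ^ 2 < 4 * η :=
          (pow_le_pow_left₀ (norm_nonneg _) a1 2).trans_lt a2
        rw [mul_pow]
        calc _ < 4 * η * ‖v‖ ^ 2 := by gcongr
          _ ≤ δ ^ 2 := hη2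
      exact lt_of_pow_lt_pow_left₀ 2 hδ.le a3
    have h4 : ∀ n, ⟪U m g - U m' g, U n v⟫_ℂ = 0 := by
      intro n
      have c1 : ∀ k, ⟪U k g, U n v⟫_ℂ ∈ insert (0 : ℂ) F := by
        intro k
        right
        have : ⟪U k g, U n v⟫_ℂ = ⟪U (-n + k) g, v⟫_ℂ := by
          rw [hU.add, hU.adj (-n), neg_neg]
        rw [this]
        exact hUg _
      have c2 := hgap _ (c1 m) _ (c1 m') (by
        rw [← inner_sub_left]
        refine (norm_inner_le_norm _ _).trans_lt ?_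
        rw [hnorm]
        exact h3)
      rw [inner_sub_left, c2, sub_self]
    have h5 := hcyc _ h4
    have h6 := hfree m m' hne'.symm g (sub_eq_zero.1 h5)
    exact hg0 (by rw [h6, inner_zero_left])
  · rw [Set.not_infinite] at hE
    obtain ⟨W, hW, hl⟩ := hg
    have h1 := hl g
    have h2 : ∀ᶠ n in (W : Filter ℤ), ⟪U n v, g⟫_ℂ = 0 := by
      have h3 : ∀ᶠ n in (cofinite : Filter ℤ), ⟪U n v, g⟫_ℂ = 0 := by
        rw [Filter.eventually_cofinite]
        refine (hE.image (fun m => -m)).subset ?_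
        intro n hn
        refine ⟨-n, ?_, by simp⟩
        simp only [mem_ofPred_eq] at hn ⊢
        intro h4
        apply hn
        rw [← inner_conj_symm, ← neg_neg n, ← hU.adj, h4, map_zero]
      exact hW h3
    have h3 : ⟪g, g⟫_ℂ = 0 := by
      refine tendsto_nhds_unique h1 ?_
      exact (tendsto_const_nhds (x := (0 : ℂ))).congr' (h2.mono fun n hn => hn.symm)
    rw [inner_self_eq_zero] at h3
    exact hg0 (by rw [h3, inner_zero_left])

end Abstract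

section Circle

theorem norm_fourier_eq (m : ℤ) (x : UnitAddCircle) : ‖(fourier m x : ℂ)‖ = 1 := by
  rw [fourier_apply]; exact Circle.norm_coe _

variable (μ : Measure UnitAddCircle) [IsFiniteMeasure μ]

theorem memLp_mul (m : ℤ) {f : UnitAddCircle → ℂ} (hf : MemLp f 2 μ) :
    MemLp (fun x => (fourier m x : ℂ) * f x) 2 μ := by
  refine hf.of_le ?_ (Filter.Eventually.of_forall fun x => ?_)
  · exact (fourier m).continuous.aestronglyMeasurable.mul hf.1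
  · rw [norm_mul, norm_fourier_eq, one_mul]

/-- multiplication by a character -/
noncomputable def mulF (m : ℤ) : Lp ℂ 2 μ →ₗᵢ[ℂ] Lp ℂ 2 μ where
  toFun f := (memLp_mul μ m (Lp.memLp f)).toLp _
  map_add' f g := by
    rw [← MemLp.toLp_add]
    apply (MemLp.toLp_eq_toLp_iff _ _).2
    filter_upwards [Lp.coeFn_add f g] with x hx
    rw [hx, Pi.add_apply, mul_add]
    rfl
  map_smul' c f := by
    rw [RingHom.id_apply, ← MemLp.toLp_const_smul]
    apply (MemLp.toLp_eq_toLp_iff _ _).2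
    filter_upwards [Lp.coeFn_smul c f] with x hx
    rw [hx, Pi.smul_apply, Pi.smul_apply, smul_eq_mul, smul_eq_mul, mul_left_comm]
  norm_map' f := by
    show ‖(memLp_mul μ m (Lp.memLp f)).toLp _‖ = ‖f‖
    rw [Lp.norm_toLp, Lp.norm_def]
    congr 1
    apply eLpNorm_congr_norm_ae
    filter_upwards with x
    rw [norm_mul, norm_fourier_eq, one_mul]

theorem mulF_coe (m : ℤ) (f : Lp ℂ 2 μ) : mulF μ m f =ᵐ[μ] fun x => (fourier m x : ℂ) * f x :=
  MemLp.coeFn_toLp (memLp_mul μ m (Lp.memLp f))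

theorem act_mulF : Act (mulF μ) where
  zero f := by
    apply Lp.ext
    filter_upwards [mulF_coe μ 0 f] with x hx
    rw [hx, fourier_zero, one_mul]
  add m n f := by
    apply Lp.ext
    filter_upwards [mulF_coe μ (m + n) f, mulF_coe μ m (mulF μ n f), mulF_coe μ n f] with x h1 h2 h3
    rw [h1, h2, h3, fourier_add, mul_assoc]

/-- the Fourier coefficients of a measure -/
noncomputable def cf (μ : Measure UnitAddCircle) (n : ℤ) : ℂ := ∫ x, fourier n x ∂μ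

/-- the constant function one -/
noncomputable def one : Lp ℂ 2 μ := (memLp_const (1 : ℂ)).toLp _

theorem one_coe : one μ =ᵐ[μ] fun _ => (1 : ℂ) := MemLp.coeFn_toLp _

theorem inner_one (n : ℤ) : ⟪mulF μ n (one μ), one μ⟫_ℂ = cf μ (-n) := by
  rw [L2.inner_def, cf]
  apply integral_congr_ae
  filter_upwards [mulF_coe μ n (one μ), one_coe μ] with x h1 h2
  rw [h1, h2, RCLike.inner_apply, mul_one, one_mul, fourier_neg]

theorem cyc (f : Lp ℂ 2 μ) (h : ∀ n, ⟪f, mulF μ n (one μ)⟫_ℂ = 0) : f = 0 := by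
  have h1 := (ContinuousMap.toLp_denseRange ℂ μ ℂ (p := 2) (by simp)).topologicalClosure_map_submodule
    (span_fourier_closure_eq_top (T := (1 : ℝ)))
  rw [Submodule.topologicalClosure_eq_top_iff] at h1
  have h2 : f ∈ (Submodule.map (ContinuousMap.toLp 2 μ ℂ : C(UnitAddCircle, ℂ) →L[ℂ] Lp ℂ 2 μ).toLinearMap
      (Submodule.span ℂ (range <| @fourier (1 : ℝ))))ᗮ := by
    rw [Submodule.mem_orthogonal]
    rintro _ ⟨u, hu, rfl⟩
    induction hu using Submodule.span_induction with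
    | mem u hu =>
      obtain ⟨n, rfl⟩ := hu
      have e : (ContinuousMap.toLp 2 μ ℂ : C(UnitAddCircle, ℂ) →L[ℂ] Lp ℂ 2 μ) (fourier n) =
          mulF μ n (one μ) := by
        apply Lp.ext
        filter_upwards [ContinuousMap.coeFn_toLp (p := 2) (𝕜 := ℂ) μ (fourier n), mulF_coe μ n (one μ),
          one_coe μ] with x h1 h2 h3
        rw [h1, h2, h3, mul_one]
      rw [← inner_conj_symm]
      erw [e]
      rw [h, map_zero]
    | zero => simp
    | add x y _ _ hx hy => rw [map_add, inner_add_left, hx, hy, add_zero]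
    | smul c x _ hx => rw [map_smul, inner_smul_left, hx, mul_zero]
  rw [h1] at h2
  exact (Submodule.mem_bot _).1 h2

theorem fourier_eq_one {k : ℤ} {x : UnitAddCircle} (h : (fourier k x : ℂ) = 1) : k • x = 0 := by
  rw [fourier_apply] at h
  have h1 : AddCircle.toCircle (k • x) = AddCircle.toCircle (0 : UnitAddCircle) := by
    rw [AddCircle.toCircle_zero]
    exact Circle.ext (by rw [h]; rfl)
  exact AddCircle.injective_toCircle one_ne_zero h1

theorem fourier_one_finite (k : ℤ) (hk : k ≠ 0) : {x : UnitAddCircle | (fourier k x : ℂ) = 1}.Finite := by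
  refine (AddCircle.finite_torsion (1 : ℝ) (Int.natAbs_pos.2 hk)).subset fun x hx => ?_
  have h := fourier_eq_one hx
  simp only [mem_ofPred_eq]
  rcases Int.natAbs_eq k with h1 | h1
  · rw [h1] at h
    rwa [natCast_zsmul] at h
  · rw [h1, neg_smul, neg_eq_zero, natCast_zsmul] at h
    exact h

theorem free (hat : ∀ x, μ {x} = 0) (m n : ℤ) (hmn : m ≠ n) (f : Lp ℂ 2 μ)
    (h : mulF μ m f = mulF μ n f) : f = 0 := by
  apply Lp.ext
  have hfin : ({x : UnitAddCircle | (fourier (m - n) x : ℂ) = 1}).Finite :=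
    fourier_one_finite _ (sub_ne_zero.2 hmn)
  have h0 : μ {x : UnitAddCircle | (fourier (m - n) x : ℂ) = 1} = 0 := by
    rw [← biUnion_of_singleton {x : UnitAddCircle | (fourier (m - n) x : ℂ) = 1}]
    exact (measure_biUnion_null_iff hfin.countable).2 fun x _ => hat x
  have h1 : ∀ᵐ x ∂μ, (fourier (m - n) x : ℂ) ≠ 1 := by
    rw [ae_iff]; simpa using h0
  have h2 : mulF μ m f =ᵐ[μ] mulF μ n f := by rw [h]
  filter_upwards [mulF_coe μ m f, mulF_coe μ n f, h1, h2, Lp.coeFn_zero ℂ 2 μ] with x e1 e2 e3 e4 e5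
  rw [e5, Pi.zero_apply]
  rw [e1, e2] at e4
  by_contra h3
  have e6 := mul_right_cancel₀ h3 e4
  apply e3
  rw [sub_eq_add_neg, fourier_add, e6, ← fourier_add, add_neg_cancel, fourier_zero]

/-- **Finitely valued Fourier transforms.** -/
theorem finite_of_range_finite (hat : ∀ x, μ {x} = 0) (hF : (range (cf μ)).Finite) :
    {n : ℤ | cf μ n ≠ 0}.Finite := by
  have h := finite_support (act_mulF μ) (one μ) (cyc μ) (fun m n hmn x hx => free μ hat m n hmn x hx)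
    (range (cf μ)) hF (fun n => by rw [inner_one]; exact ⟨_, rfl⟩)
  refine (h.image (fun n => -n)).subset ?_
  intro n hn
  refine ⟨-n, ?_, by simp⟩
  simp only [mem_ofPred_eq] at hn ⊢
  rwa [inner_one, neg_neg]

end Circle

end Pool.Agent.H185.XQ
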