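import Pool.Agent.H185.XQ.Dec

/-!
# One or infinitely many atomless ergodic measures
-/

set_option autoImplicit false
set_option linter.unusedSectionVars false

open MeasureTheory Filter Topology Set ProbabilityTheory
open scoped InnerProductSpace ComplexConjugate ENNReal

namespace Pool.Agent.H185.XQ

/-- points of finite order -/
def Tor : Set UnitAddCircle := {x | ∃ n : ℕ, 0 < n ∧ n • x = 0}

theorem Tor_countable : Tor.Countable := by
  have : Tor = ⋃ n : {n : ℕ // 0 < n}, {x : UnitAddCircle | (n : ℕ) • x = 0} := by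
    ext x; simp [Tor]
  rw [this]
  exact countable_iUnion fun n => (AddCircle.finite_torsion (1 : ℝ) n.2).countable

/-- an atom of an invariant measure has finite order -/
theorem atomless_of_Tor {ρ : Measure UnitAddCircle} [IsProbabilityMeasure ρ] {p : ℕ} (hp : 2 ≤ p)
    (hρ : Inv p ρ) (h0 : ρ Tor = 0) (x : UnitAddCircle) : ρ {x} = 0 := by
  by_contra hx
  have h1 : ∀ k : ℕ, ρ {x} ≤ ρ {p ^ k • x} := by
    intro k
    induction k with
    | zero => simp
    | succ k ih =>
      refine ih.trans ?_
      have h2 := hρ.measure_preimage (measurableSet_singleton (p ^ (k + 1) • x)).nullMeasurableSet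
      rw [← h2]
      apply measure_mono
      rintro y rfl
      simp only [mem_preimage, mem_singleton_iff]
      rw [pow_succ', mul_smul]
  by_cases hinj : Function.Injective (fun k : ℕ => p ^ k • x)
  · have h3 : ∑' k : ℕ, ρ {p ^ k • x} ≤ 1 := by
      rw [← measure_iUnion (fun i j hij => by
        simp only [Function.onFun, disjoint_singleton]; exact fun h => hij (hinj h))
        (fun k => measurableSet_singleton _)]
      exact prob_le_one
    have h4 : (∞ : ℝ≥0∞) ≤ ∑' k : ℕ, ρ {p ^ k • x} := by
      rw [← ENNReal.tsum_const_eq_top_of_ne_zero (α := ℕ) hx]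
      exact ENNReal.tsum_le_tsum h1
    exact absurd (h4.trans h3) (by simp)
  · simp only [Function.Injective, not_forall] at hinj
    obtain ⟨a, b, hab, hne⟩ := hinj
    wlog hlt : a < b generalizing a b
    · exact this b a hab.symm (Ne.symm hne) (lt_of_le_of_ne (not_lt.1 hlt) (Ne.symm hne))
    have h5 : x ∈ Tor := by
      refine ⟨p ^ b - p ^ a, Nat.sub_pos_of_lt (Nat.pow_lt_pow_right (by omega) hlt), ?_⟩
      have h6 : (p ^ b - p ^ a) • x + p ^ a • x = p ^ b • x := by
        rw [← add_smul, Nat.sub_add_cancel (Nat.pow_le_pow_right (by omega) hlt.le)]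
      have h7 : p ^ a • x = p ^ b • x := hab
      rw [h7] at h6
      simpa using h6
    exact hx (measure_mono_null (singleton_subset_iff.2 h5) h0)

variable {S : Set ℕ}

/-- the atomless ergodic measures -/
def AE (S : Set ℕ) : Set (Measure UnitAddCircle) :=
  {ρ | IsProbabilityMeasure ρ ∧ (∀ x, ρ {x} = 0) ∧ (∀ s ∈ S, Inv s ρ) ∧
    ∀ E : Set UnitAddCircle, MeasurableSet E →
      (∀ s ∈ S, (fun x : UnitAddCircle => s • x) ⁻¹' E = E) → ρ E = 0 ∨ ρ E = 1}

theorem inv_closure {ρ : Measure UnitAddCircle} (h : ∀ s ∈ S, Inv s ρ) :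
    ∀ g ∈ Submonoid.closure S, Inv g ρ := by
  intro g hg
  induction hg using Submonoid.closure_induction with
  | mem x hx => exact h x hx
  | one =>
    unfold Inv
    simp_rw [one_smul]
    exact MeasurePreserving.id _
  | mul a b _ _ ha hb =>
    unfold Inv at *
    simp_rw [mul_smul]
    exact ha.comp hb

theorem preimage_closure {E : Set UnitAddCircle}
    (h : ∀ s ∈ S, (fun x : UnitAddCircle => s • x) ⁻¹' E = E) :
    ∀ g ∈ Submonoid.closure S, (fun x : UnitAddCircle => g • x) ⁻¹' E = E := by
  intro g hg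
  induction hg using Submonoid.closure_induction with
  | mem x hx => exact h x hx
  | one => simp
  | mul a b _ _ ha hb =>
    have e : (fun x : UnitAddCircle => (a * b) • x) = (fun x => a • x) ∘ (fun x => b • x) := by
      ext x; simp [mul_smul]
    rw [e, preimage_comp, ha, hb]

/-- almost all ergodic components of an atomless invariant measure are atomless ergodic measures -/
theorem comp_mem {μ : Measure UnitAddCircle} [IsProbabilityMeasure μ] (hat : ∀ x, μ {x} = 0)
    (hμ : ∀ s ∈ S, Inv s μ) (hS : ∃ p ∈ S, 2 ≤ p) :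
    ∀ᵐ ω ∂μ, comp (Submonoid.closure S) μ ω ∈ AE S := by
  obtain ⟨p, hpS, hp⟩ := hS
  have hG := inv_closure hμ
  have h0 : μ Tor = 0 := by
    rw [← biUnion_of_singleton Tor]
    exact (measure_biUnion_null_iff Tor_countable).2 fun x _ => hat x
  have h1 : ∀ᵐ ω ∂μ, comp (Submonoid.closure S) μ ω Tor = 0 := by
    have h2 := lintegral_comp (G := Submonoid.closure S) (μ := μ) Tor_countable.measurableSet
    rw [h0, lintegral_eq_zero_iff (measurable_comp Tor_countable.measurableSet)] at h2
    exact h2
  filter_upwards [h1, comp_inv hG, comp_erg hG] with ω e1 e2 e3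
  refine ⟨inferInstance, ?_, fun s hs => e2 s (Submonoid.subset_closure hs), fun E hE hEi => ?_⟩
  · exact atomless_of_Tor hp (e2 p (Submonoid.subset_closure hpS)) e1
  · exact e3 E hE (preimage_closure hEi)

theorem cf_eq_integral_comp {μ : Measure UnitAddCircle} [IsProbabilityMeasure μ] (G : Submonoid ℕ)
    (n : ℤ) : cf μ n = ∫ ω, cf (comp G μ ω) n ∂μ := by
  rw [integral_congr_ae (cf_comp_ae (G := G) (μ := μ) n), integral_condExp (inva_le G μ)]
  rfl

theorem integrable_cf_comp {μ : Measure UnitAddCircle} [IsProbabilityMeasure μ] (G : Submonoid ℕ)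
    (n : ℤ) : Integrable (fun ω => cf (comp G μ ω) n) μ :=
  Integrable.of_bound (measurable_cf_comp n).aestronglyMeasurable 1
    (Filter.Eventually.of_forall fun _ => norm_cf_le _ _)

/-- if there are only finitely many atomless ergodic measures then the sequences of the Fourier
coefficients of the atomless invariant measures span a finite dimensional space -/
theorem cf_mem_span (hfin : (AE S).Finite) {μ : Measure UnitAddCircle} [IsProbabilityMeasure μ]
    (hat : ∀ x, μ {x} = 0) (hμ : ∀ s ∈ S, Inv s μ) (hS : ∃ p ∈ S, 2 ≤ p) :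
    cf μ ∈ Submodule.span ℂ (cf '' AE S) := by
  classical
  set G := Submonoid.closure S
  let Om : Measure UnitAddCircle → Set UnitAddCircle := fun ρ => {ω | ∀ n, cf (comp G μ ω) n = cf ρ n}
  have hOm : ∀ ρ, MeasurableSet (Om ρ) := by
    intro ρ
    have : Om ρ = ⋂ n : ℤ, (fun ω => cf (comp G μ ω) n) ⁻¹' {cf ρ n} := by
      ext ω; simp [Om]
    rw [this]
    exact MeasurableSet.iInter fun n => measurable_cf_comp n (measurableSet_singleton _)
  have h1 : ∀ n, cf μ n = ∑ ρ ∈ hfin.toFinset, (μ.real (Om ρ) : ℂ) * cf ρ n := by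
    intro n
    rw [cf_eq_integral_comp G n]
    have h2 : (fun ω => cf (comp G μ ω) n) =ᵐ[μ]
        fun ω => ∑ ρ ∈ hfin.toFinset, (Om ρ).indicator (fun _ => cf ρ n) ω := by
      filter_upwards [comp_mem hat hμ hS] with ω hω
      rw [Finset.sum_eq_single (comp G μ ω)]
      · rw [indicator_of_mem]
        exact fun n => rfl
      · intro ρ hρ hne
        apply indicator_of_notMem
        intro hmem
        apply hne
        have := ((hfin.mem_toFinset.1 hρ).1 : IsProbabilityMeasure ρ)
        exact (ext_cf hmem).symm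
      · intro hnot
        exact absurd (hfin.mem_toFinset.2 hω) hnot
    rw [integral_congr_ae h2, integral_finsetSum]
    · refine Finset.sum_congr rfl fun ρ _ => ?_
      rw [integral_indicator_const _ (hOm ρ)]
      simp
    · intro ρ _
      exact (integrable_const _).indicator (hOm ρ)
  have h3 : cf μ = ∑ ρ ∈ hfin.toFinset, (μ.real (Om ρ) : ℂ) • cf ρ := by
    ext n
    rw [h1 n, Finset.sum_apply]
    simp
  rw [h3]
  refine Submodule.sum_mem _ fun ρ hρ => Submodule.smul_mem _ _ (Submodule.subset_span ?_)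
  exact ⟨ρ, hfin.mem_toFinset.1 hρ, rfl⟩

/-- powers in a finite dimensional space -/
theorem range_finite {c : ℤ → ℂ} {W : Submodule ℂ (ℤ → ℂ)} [FiniteDimensional ℂ W]
    (h : ∀ k : ℕ, (fun n => c n ^ (k + 1)) ∈ W) : (range c).Finite := by
  classical
  have h1 : ¬ LinearIndependent ℂ (fun k : ℕ => (⟨fun n => c n ^ (k + 1), h k⟩ : W)) := by
    intro hli
    exact not_finite_iff_infinite.2 (inferInstance : Infinite ℕ) hli.finite
  rw [not_linearIndependent_iff] at h1
  obtain ⟨s, g, hg, i, hi, hgi⟩ := h1
  have h2 : ∀ n, ∑ i ∈ s, g i * c n ^ (i + 1) = 0 := by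
    intro n
    have h3 := congrArg (fun w : W => (w : ℤ → ℂ) n) hg
    simpa [Finset.sum_apply] using h3
  set Q : Polynomial ℂ := ∑ i ∈ s, Polynomial.C (g i) * Polynomial.X ^ (i + 1) with hQ
  have hQ0 : Q ≠ 0 := by
    intro h0
    have h3 : Q.coeff (i + 1) = g i := by
      rw [hQ, Polynomial.finsetSum_coeff]
      simp only [Polynomial.coeff_C_mul, Polynomial.coeff_X_pow]
      rw [Finset.sum_eq_single i]
      · simp
      · intro b _ hb
        simp [hb.symm]
      · exact fun h => absurd hi h
    rw [h0, Polynomial.coeff_zero] at h3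
    exact hgi h3.symm
  refine (Q.roots.toFinset.finite_toSet).subset ?_
  rintro _ ⟨n, rfl⟩
  rw [Finset.mem_coe, Multiset.mem_toFinset, Polynomial.mem_roots hQ0, Polynomial.IsRoot, hQ,
    Polynomial.eval_finsetSum]
  simpa using h2 n

/-- an atomless measure invariant under multiplication by `p ≥ 2` whose Fourier coefficients take
finitely many values is Lebesgue measure -/
theorem eq_volume_of_range {μ : Measure UnitAddCircle} [IsProbabilityMeasure μ] (hat : ∀ x, μ {x} = 0)
    {p : ℕ} (hp : 2 ≤ p) (hμ : Inv p μ) (hr : (range (cf μ)).Finite) : μ = volume := by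
  have h1 := finite_of_range_finite μ hat hr
  refine eq_volume fun n hn => ?_
  by_contra hne
  have h2 : ∀ k : ℕ, cf μ (n * (p : ℤ) ^ k) = cf μ n := by
    intro k
    induction k with
    | zero => simp
    | succ k ih =>
      rw [pow_succ, ← mul_assoc, (inv_iff.1 hμ), ih]
  have h3 : Function.Injective (fun k : ℕ => n * (p : ℤ) ^ k) := by
    intro a b hab
    have := mul_left_cancel₀ hn hab
    exact Int.pow_right_injective (by simp; omega) this
  exact (Set.infinite_of_injective_forall_mem h3 (fun k => by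
    show cf μ (n * (p : ℤ) ^ k) ≠ 0
    rw [h2]; exact hne)) h1

theorem infinite_AE (hS : ∃ p ∈ S, 2 ≤ p) {μ : Measure UnitAddCircle} [IsProbabilityMeasure μ]
    (hat : ∀ x, μ {x} = 0) (hμ : ∀ s ∈ S, Inv s μ) (hne : μ ≠ volume) : (AE S).Infinite := by
  intro hfin
  obtain ⟨p, hpS, hp⟩ := hS
  apply hne
  have : FiniteDimensional ℂ (Submodule.span ℂ (cf '' AE S)) :=
    FiniteDimensional.span_of_finite ℂ (hfin.image _)
  refine eq_volume_of_range hat hp (hμ p hpS) (range_finite (W := Submodule.span ℂ (cf '' AE S))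
    fun k => ?_)
  have h1 := cf_mem_span hfin (cpow_atomless μ hat k) (fun s hs => cpow_inv (hμ s hs) k) ⟨p, hpS, hp⟩
  convert h1 using 1
  ext n
  rw [cf_cpow]

end Pool.Agent.H185.XQ
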