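import Pool.Agent.H185.XQ.Inf

/-!
# Isolation of Lebesgue measure among the atomless ergodic measures
-/

set_option autoImplicit false
set_option linter.unusedSectionVars false

open MeasureTheory Filter Topology Set ProbabilityTheory
open scoped InnerProductSpace ComplexConjugate ENNReal

namespace Pool.Agent.H185.XQ

theorem fourier_eq_finite (m : ℤ) (hm : m ≠ 0) (c : ℂ) :
    {x : UnitAddCircle | (fourier m x : ℂ) = c}.Finite := by
  by_cases h : ({x : UnitAddCircle | (fourier m x : ℂ) = c}).Nonempty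
  · obtain ⟨x₀, hx₀⟩ := h
    refine ((fourier_one_finite m hm).image (fun y => y + x₀)).subset ?_
    intro x hx
    refine ⟨x - x₀, ?_, by simp⟩
    simp only [mem_ofPred_eq] at hx hx₀ ⊢
    have h1 : (fourier m (x - x₀) : ℂ) * fourier m x₀ = fourier m x := by
      rw [fourier_apply, fourier_apply, fourier_apply, ← Circle.coe_mul, ← AddCircle.toCircle_add,
        ← smul_add, sub_add_cancel]
    have h2 : (fourier m x₀ : ℂ) ≠ 0 := by
      intro h3
      have := norm_fourier_eq m x₀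
      rw [h3] at this
      simp at this
    rw [hx, ← hx₀] at h1
    exact mul_right_cancel₀ h2 (by rw [h1, one_mul])
  · rw [not_nonempty_iff_eq_empty.1 h]; exact finite_empty

theorem norm_cf_lt {μ : Measure UnitAddCircle} [IsProbabilityMeasure μ] (hat : ∀ x, μ {x} = 0) {m : ℤ}
    (hm : m ≠ 0) : ‖cf μ m‖ < 1 := by
  refine lt_of_le_of_ne (norm_cf_le μ m) fun h => ?_
  set c := cf μ m with hc
  have h1 : ∫ x, ‖(fourier m x : ℂ) - c‖ ^ 2 ∂μ = 0 := by
    have h7 : ∀ x : UnitAddCircle, ‖(fourier m x : ℂ) - c‖ ^ 2 = 2 - 2 * (conj c * fourier m x).re := by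
      intro x
      have := @norm_sub_sq ℂ ℂ _ _ _ (fourier m x : ℂ) c
      rw [this, norm_fourier_eq, h]
      have e : RCLike.re ⟪(fourier m x : ℂ), c⟫_ℂ = (conj c * fourier m x).re := by
        rw [← inner_conj_symm, RCLike.inner_apply]
        simp [mul_comm]
      rw [e]
      ring
    simp_rw [h7]
    have i2 : Integrable (fun x => (conj c * (fourier m x : ℂ)).re) μ :=
      ((integrable_cont μ (fourier m)).const_mul _).re
    rw [integral_sub (f := fun _ => (2 : ℝ)) (g := fun x => 2 * (conj c * (fourier m x : ℂ)).re)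
      (integrable_const _) (i2.const_mul _), integral_const_mul]
    have h9 := integral_re ((integrable_cont μ (fourier m)).const_mul (conj c))
    simp only [RCLike.re_to_complex] at h9
    have e2 : (∫ x, (fourier m x : ℂ) ∂μ) = c := rfl
    rw [h9, integral_const_mul, e2, mul_comm (conj c), Complex.mul_conj, Complex.normSq_eq_norm_sq, h]
    simp
  have hint : Integrable (fun x => ‖(fourier m x : ℂ) - c‖ ^ 2) μ := by
    have : Continuous (fun x : UnitAddCircle => ‖(fourier m x : ℂ) - c‖ ^ 2) := by fun_prop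
    exact this.integrable_of_hasCompactSupport (HasCompactSupport.of_compactSpace _)
  rw [integral_eq_zero_iff_of_nonneg (fun x => by positivity) hint] at h1
  have h2 : ∀ᵐ x ∂μ, (fourier m x : ℂ) = c := by
    filter_upwards [h1] with x hx
    simp only [Pi.zero_apply] at hx
    have := pow_eq_zero_iff (two_ne_zero) |>.1 hx
    exact sub_eq_zero.1 (norm_eq_zero.1 this)
  have h3 : μ {x : UnitAddCircle | (fourier m x : ℂ) = c} = 0 := by
    rw [← biUnion_of_singleton {x : UnitAddCircle | (fourier m x : ℂ) = c}]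
    exact (measure_biUnion_null_iff (fourier_eq_finite m hm c).countable).2 fun x _ => hat x
  have h4 : μ univ = 0 := by
    rw [← union_compl_self {x : UnitAddCircle | (fourier m x : ℂ) = c}]
    exact measure_union_null h3 (ae_iff.1 h2)
  simp at h4

/-- uniform averages along the powers of `p` -/
noncomputable def avg (p : ℕ) (n : ℤ) (M : ℕ) : C(UnitAddCircle, ℂ) :=
  ∑ i ∈ Finset.range M, ((M : ℝ)⁻¹) • fourier (n * ((p ^ i : ℕ) : ℤ))

theorem avg_mem {G : Submonoid ℕ} {p : ℕ} (hp : p ∈ G) (n : ℤ) {M : ℕ} (hM : 0 < M) :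
    avg p n M ∈ Cv G n := by
  refine (convex_convexHull ℝ _).sum_mem (fun i _ => by positivity) ?_ fun i _ => ?_
  · rw [Finset.sum_const, Finset.card_range, nsmul_eq_mul]
    field_simp
  · exact subset_convexHull ℝ _ ⟨⟨p ^ i, pow_mem hp i⟩, rfl⟩

theorem integral_avg (ν : Measure UnitAddCircle) [IsProbabilityMeasure ν] (p : ℕ) (n : ℤ) (M : ℕ) :
    ((∫ x, ‖avg p n M x‖ ^ 2 ∂ν : ℝ) : ℂ) = ((M : ℂ)⁻¹) ^ 2 * ∑ i ∈ Finset.range M, ∑ j ∈ Finset.range M,
      cf ν (n * ((p : ℤ) ^ i - (p : ℤ) ^ j)) := by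
  have h1 : ∀ x, ((‖avg p n M x‖ ^ 2 : ℝ) : ℂ) = ((M : ℂ)⁻¹) ^ 2 * ∑ i ∈ Finset.range M,
      ∑ j ∈ Finset.range M, (fourier (n * ((p : ℤ) ^ i - (p : ℤ) ^ j)) x : ℂ) := by
    intro x
    have h2 : avg p n M x = (M : ℂ)⁻¹ * ∑ i ∈ Finset.range M, (fourier (n * (p : ℤ) ^ i) x : ℂ) := by
      simp only [avg, ContinuousMap.coe_sum, Finset.sum_apply, ContinuousMap.smul_apply]
      rw [Finset.mul_sum]
      refine Finset.sum_congr rfl fun i _ => ?_
      rw [Complex.real_smul]
      push_cast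
      rfl
    rw [← Complex.normSq_eq_norm_sq, ← Complex.mul_conj, h2, map_mul, map_sum]
    have h3 : conj ((M : ℂ)⁻¹) = (M : ℂ)⁻¹ := by simp
    rw [h3]
    have h4 : ∀ i j : ℕ, (fourier (n * (p : ℤ) ^ i) x : ℂ) * conj (fourier (n * (p : ℤ) ^ j) x : ℂ) =
        fourier (n * ((p : ℤ) ^ i - (p : ℤ) ^ j)) x := by
      intro i j
      rw [← fourier_neg, ← fourier_add]
      congr 1
      ring_nf
    calc _ = ((M : ℂ)⁻¹) ^ 2 * ((∑ i ∈ Finset.range M, (fourier (n * (p : ℤ) ^ i) x : ℂ)) *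
          ∑ j ∈ Finset.range M, conj (fourier (n * (p : ℤ) ^ j) x : ℂ)) := by ring
      _ = _ := by
        rw [Finset.sum_mul_sum]
        simp_rw [h4]
  rw [← integral_complex_ofReal]
  simp_rw [h1]
  rw [integral_const_mul, integral_finsetSum]
  · congr 1
    refine Finset.sum_congr rfl fun i _ => ?_
    rw [integral_finsetSum]
    · rfl
    · intro j _; exact integrable_cont ν _
  · intro i _
    exact integrable_finsetSum _ fun j _ => integrable_cont ν _

theorem second_moment_tendsto {S : Set ℕ} {p : ℕ} (hpS : p ∈ S) (hp : 2 ≤ p) {μ : Measure UnitAddCircle}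
    [IsProbabilityMeasure μ] (hat : ∀ x, μ {x} = 0) (hμ : ∀ s ∈ S, Inv s μ) {n : ℤ} (hn : n ≠ 0) :
    Tendsto (fun k => ∫ ω, ‖cf (comp (Submonoid.closure S) (cpow μ k) ω) n‖ ^ 2 ∂(cpow μ k)) atTop
      (𝓝 0) := by
  rw [Metric.tendsto_atTop]
  intro ε hε
  obtain ⟨M, hM⟩ := exists_nat_one_div_lt (half_pos hε)
  have h1 : Tendsto (fun k : ℕ => (((M + 1 : ℕ) : ℂ)⁻¹) ^ 2 * ∑ i ∈ Finset.range (M + 1),
      ∑ j ∈ Finset.range (M + 1), cf (cpow μ k) (n * ((p : ℤ) ^ i - (p : ℤ) ^ j))) atTop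
      (𝓝 ((((M + 1 : ℕ) : ℂ)⁻¹) ^ 2 * ∑ i ∈ Finset.range (M + 1),
      ∑ j ∈ Finset.range (M + 1), (if i = j then 1 else 0))) := by
    refine Tendsto.const_mul _ (tendsto_finsetSum _ fun i _ => tendsto_finsetSum _ fun j _ => ?_)
    simp_rw [cf_cpow]
    split_ifs with hij
    · subst hij
      simp [cf_zero]
    · have h2 : n * ((p : ℤ) ^ i - (p : ℤ) ^ j) ≠ 0 := by
        apply mul_ne_zero hn
        rw [sub_ne_zero]
        intro h3
        exact hij (Int.pow_right_injective (by simp; omega) h3)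
      have h3 := tendsto_pow_atTop_nhds_zero_of_norm_lt_one (norm_cf_lt hat h2)
      exact (tendsto_add_atTop_iff_nat 1).2 h3
  have h2 : (((M + 1 : ℕ) : ℂ)⁻¹) ^ 2 * ∑ i ∈ Finset.range (M + 1),
      ∑ j ∈ Finset.range (M + 1), (if i = j then (1 : ℂ) else 0) = ((1 / ((M : ℝ) + 1) : ℝ) : ℂ) := by
    have : ∀ i ∈ Finset.range (M + 1), ∑ j ∈ Finset.range (M + 1), (if i = j then (1 : ℂ) else 0) = 1 := by
      intro i hi
      rw [Finset.sum_ite_eq, if_pos hi]
    rw [Finset.sum_congr rfl this, Finset.sum_const, Finset.card_range]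
    have h3 : ((M : ℂ) + 1) ≠ 0 := by exact_mod_cast Nat.succ_ne_zero M
    push_cast
    simp only [nsmul_eq_mul, mul_one]
    push_cast
    field_simp
  rw [h2] at h1
  simp_rw [← integral_avg] at h1
  have h3 : Tendsto (fun k : ℕ => ∫ x, ‖avg p n (M + 1) x‖ ^ 2 ∂(cpow μ k)) atTop
      (𝓝 (1 / ((M : ℝ) + 1))) := by
    have := (Complex.continuous_re.tendsto _).comp h1
    simp only [Function.comp_def, Complex.ofReal_re] at this
    exact this
  obtain ⟨K, hK⟩ := eventually_atTop.1 (h3.eventually_lt_const (show 1 / ((M : ℝ) + 1) < ε by linarith))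
  refine ⟨K, fun k hk => ?_⟩
  rw [Real.dist_eq, sub_zero, abs_of_nonneg (integral_nonneg fun _ => by positivity)]
  have hG := inv_closure (S := S) (ρ := cpow μ k) fun s hs => cpow_inv (hμ s hs) k
  exact ((second_moment hG n).1 _ (avg_mem (Submonoid.subset_closure hpS) n (Nat.succ_pos M))).trans_lt
    (hK k hk)

end Pool.Agent.H185.XQ
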