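import Pool.Agent.H185.XQ.Ent

/-!
# Sequences of atomless ergodic measures converging to Lebesgue measure
-/

set_option autoImplicit false
set_option linter.unusedSectionVars false

open MeasureTheory Filter Topology Set ProbabilityTheory
open scoped InnerProductSpace ComplexConjugate ENNReal

namespace Pool.Agent.H185.XQ

theorem norm_integral_sub_le (ν : Measure UnitAddCircle) [IsProbabilityMeasure ν]
    (f g : C(UnitAddCircle, ℂ)) : ‖∫ x, f x ∂ν - ∫ x, g x ∂ν‖ ≤ ‖f - g‖ := by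
  rw [← integral_sub (integrable_cont ν f) (integrable_cont ν g)]
  have h := norm_integral_le_of_norm_le_const (μ := ν) (f := fun x => f x - g x) (C := ‖f - g‖)
    (Filter.Eventually.of_forall fun x => (f - g).norm_coe_le_norm x)
  simpa using h

/-- convergence of the Fourier coefficients implies weak convergence -/
theorem tendsto_of_cf {ν : ℕ → Measure UnitAddCircle} (hν : ∀ j, IsProbabilityMeasure (ν j))
    {ρ : Measure UnitAddCircle} [IsProbabilityMeasure ρ]
    (h : ∀ n, Tendsto (fun j => cf (ν j) n) atTop (𝓝 (cf ρ n))) (f : C(UnitAddCircle, ℝ)) :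
    Tendsto (fun j => ∫ x, f x ∂(ν j)) atTop (𝓝 (∫ x, f x ∂ρ)) := by
  have h1 : ∀ P ∈ Submodule.span ℂ (range <| @fourier (1 : ℝ)),
      Tendsto (fun j => ∫ x, P x ∂(ν j)) atTop (𝓝 (∫ x, P x ∂ρ)) := by
    intro P hP
    induction hP using Submodule.span_induction with
    | mem u hu => obtain ⟨n, rfl⟩ := hu; exact h n
    | zero => simp
    | add x y _ _ hx hy =>
      have e : ∀ m : Measure UnitAddCircle, IsFiniteMeasure m →
          ∫ z, (x + y) z ∂m = ∫ z, x z ∂m + ∫ z, y z ∂m := by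
        intro m _
        exact integral_add (integrable_cont m x) (integrable_cont m y)
      rw [e ρ inferInstance]
      simp_rw [fun j => e (ν j) inferInstance]
      exact hx.add hy
    | smul c x _ hx =>
      have e : ∀ m : Measure UnitAddCircle, ∫ z, (c • x) z ∂m = c • ∫ z, x z ∂m := fun m => by
        simp only [ContinuousMap.smul_apply]
        rw [integral_smul]
      rw [e ρ]
      simp_rw [e]
      exact hx.const_smul c
  set g : C(UnitAddCircle, ℂ) := ⟨fun x => (f x : ℂ), by fun_prop⟩ with hg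
  have hgf : ∀ m : Measure UnitAddCircle, ∫ x, g x ∂m = ((∫ x, f x ∂m : ℝ) : ℂ) := fun m =>
    integral_complex_ofReal
  have h2 : Tendsto (fun j => ∫ x, g x ∂(ν j)) atTop (𝓝 (∫ x, g x ∂ρ)) := by
    rw [Metric.tendsto_atTop]
    intro ε hε
    have h3 : (Submodule.span ℂ (range <| @fourier (1 : ℝ))).topologicalClosure = ⊤ :=
      span_fourier_closure_eq_top
    have h4 : g ∈ (Submodule.span ℂ (range <| @fourier (1 : ℝ))).topologicalClosure := by
      rw [h3]; trivial
    obtain ⟨P, hP, hgP⟩ := Metric.mem_closure_iff.1 h4 (ε / 3) (by positivity)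
    obtain ⟨K, hK⟩ := Metric.tendsto_atTop.1 (h1 P hP) (ε / 3) (by positivity)
    refine ⟨K, fun j hj => ?_⟩
    have h5 := hK j hj
    rw [dist_eq_norm] at h5 hgP ⊢
    have h6 := norm_integral_sub_le (ν j) g P
    have h7 := norm_integral_sub_le ρ P g
    rw [norm_sub_rev] at h7
    rw [norm_sub_rev P g] at h7
    calc ‖∫ x, g x ∂(ν j) - ∫ x, g x ∂ρ‖
        = ‖(∫ x, g x ∂(ν j) - ∫ x, P x ∂(ν j)) + (∫ x, P x ∂(ν j) - ∫ x, P x ∂ρ) -
          (∫ x, g x ∂ρ - ∫ x, P x ∂ρ)‖ := by congr 1; ring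
      _ ≤ ‖(∫ x, g x ∂(ν j) - ∫ x, P x ∂(ν j)) + (∫ x, P x ∂(ν j) - ∫ x, P x ∂ρ)‖ +
          ‖∫ x, g x ∂ρ - ∫ x, P x ∂ρ‖ := norm_sub_le _ _
      _ ≤ ‖∫ x, g x ∂(ν j) - ∫ x, P x ∂(ν j)‖ + ‖∫ x, P x ∂(ν j) - ∫ x, P x ∂ρ‖ +
          ‖∫ x, g x ∂ρ - ∫ x, P x ∂ρ‖ := by gcongr; exact norm_add_le _ _
      _ < ε := by linarith
  have h5 := (Complex.continuous_re.tendsto _).comp h2
  simp only [Function.comp_def, hgf, Complex.ofReal_re] at h5
  exact h5

theorem exists_seq {S : Set ℕ} (h : ¬ Isolated S) : ∃ ν : ℕ → Measure UnitAddCircle,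
    (∀ j, ν j ∈ AE S ∧ ν j ≠ volume) ∧
      ∀ f : C(UnitAddCircle, ℝ), Tendsto (fun j => ∫ x, f x ∂(ν j)) atTop (𝓝 (∫ x, f x)) := by
  unfold Isolated at h
  push Not at h
  choose ν hν h1 h2 using fun j : ℕ => h (1 / ((j : ℝ) + 1)) (by positivity) j
  refine ⟨ν, fun j => ⟨hν j, h2 j⟩, tendsto_of_cf (fun j => (hν j).1) fun n => ?_⟩
  by_cases hn : n = 0
  · subst hn
    have := fun j => (hν j).1
    simp_rw [cf_zero]
    exact tendsto_const_nhds
  · rw [cf_volume hn, tendsto_zero_iff_norm_tendsto_zero]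
    refine squeeze_zero' (Filter.Eventually.of_forall fun j => norm_nonneg _) ?_
      tendsto_one_div_add_atTop_nhds_zero_nat
    filter_upwards [eventually_ge_atTop n.natAbs] with j hj
    refine (h1 j n hn ?_).le
    rw [Int.abs_eq_natAbs]
    exact_mod_cast hj

end Pool.Agent.H185.XQ
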